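import Mathlib

/-!
# Kameko's squaring operation on coinvariants: basic definitions
-/

set_option autoImplicit false

namespace Pool.Agent.Y460.Kam

open MvPolynomial

/-- `P_d = 𝔽₂[x₁, …, x_d]`. -/
abbrev Pol (d : ℕ) := MvPolynomial (Fin d) (ZMod 2)

/-- The total Steenrod square on `P_d`: the ring homomorphism with `x_i ↦ x_i + x_i ^ 2`.
For `f` homogeneous of degree `m`, `Sq^k f` is the component of degree `m + k` of `Sq d f`. -/
noncomputable def Sq (d : ℕ) : Pol d →ₐ[ZMod 2] Pol d :=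
  aeval fun i => X i + X i ^ 2

/-- The action of `GL_d` on `P_d` by substitution: `x_j ↦ ∑ i, w i j * x_i`. -/
noncomputable def act {d : ℕ} (w : GL (Fin d) (ZMod 2)) : Pol d →ₐ[ZMod 2] Pol d :=
  aeval fun j => ∑ i, C ((w : Matrix (Fin d) (Fin d) (ZMod 2)) i j) * X i

/-- `H_n`: the degree `n` part of the graded dual of `P_d`, that is, the linear functionals on
`P_d` vanishing on the homogeneous polynomials of all degrees `m ≠ n`. -/
def H (d n : ℕ) : Submodule (ZMod 2) (Module.Dual (ZMod 2) (Pol d)) where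
  carrier := {φ | ∀ m, m ≠ n → ∀ f ∈ homogeneousSubmodule (Fin d) (ZMod 2) m, φ f = 0}
  add_mem' := by
    intro a b ha hb m hm f hf
    rw [LinearMap.add_apply, ha m hm f hf, hb m hm f hf, add_zero]
  zero_mem' := fun _ _ _ _ => rfl
  smul_mem' := by
    intro c a ha m hm f hf
    rw [LinearMap.smul_apply, ha m hm f hf, smul_zero]

/-- `PH_n`: the elements of `H_n` annihilated by (the transposes of) all `Sq^k` with `k > 0`. -/
def PH (d n : ℕ) : Submodule (ZMod 2) (Module.Dual (ZMod 2) (Pol d)) where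
  carrier := {φ | φ ∈ H d n ∧ ∀ k, 0 < k → ∀ m, ∀ f ∈ homogeneousSubmodule (Fin d) (ZMod 2) m,
    φ (homogeneousComponent (m + k) (Sq d f)) = 0}
  add_mem' := by
    rintro a b ⟨ha, ha'⟩ ⟨hb, hb'⟩
    refine ⟨(H d n).add_mem ha hb, fun k hk m f hf => ?_⟩
    rw [LinearMap.add_apply, ha' k hk m f hf, hb' k hk m f hf, add_zero]
  zero_mem' := ⟨(H d n).zero_mem, fun _ _ _ _ _ => rfl⟩
  smul_mem' := by
    rintro c a ⟨ha, ha'⟩
    refine ⟨(H d n).smul_mem c ha, fun k hk m f hf => ?_⟩
    rw [LinearMap.smul_apply, ha' k hk m f hf, smul_zero]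

/-- The linear map `P_d → P_d` with `x^t ↦ x^((t-1)/2)` if all exponents of `x^t` are odd, and
`x^t ↦ 0` otherwise. Its transpose sends the functional dual to the monomial `x^s` to the
functional dual to `x^(2s+1)`. -/
noncomputable def kappa (d : ℕ) : Pol d →ₗ[ZMod 2] Pol d :=
  (basisMonomials (Fin d) (ZMod 2)).constr (ZMod 2) fun t =>
    if ∀ i, Odd (t i) then monomial (t.mapRange (fun a => a / 2) rfl) 1 else 0

end Pool.Agent.Y460.Kam
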