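import Pool.Agent.Y460.Kam.Lem4

/-!
# Kameko's squaring operation on the coinvariants
-/

set_option autoImplicit false

namespace Pool.Agent.Y460.Kam

open MvPolynomial

lemma kam_mem {d n : ℕ} {φ : Module.Dual (ZMod 2) (Pol d)} (hφ : φ ∈ PH d n) :
    φ ∘ₗ kappa d ∈ PH d (d + 2 * n) := by
  apply mem_PH_of
  · intro m hm f hf
    rw [LinearMap.comp_apply, H_apply hφ.1]
    have : homogeneousComponent n (kappa d f) = 0 := by
      ext s
      rw [coeff_homogeneousComponent, coeff_zero]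
      split_ifs with hs
      · rw [coeff_kappa]
        apply ((mem_homogeneousSubmodule _ _).mp hf).coeff_eq_zero
        intro h
        apply hm
        rw [← h, map_add, map_nsmul, hs, degree_eq_sum]
        simp
        ring
      · rfl
    rw [this, map_zero]
  · intro f
    rw [LinearMap.comp_apply, LinearMap.comp_apply, kappa_Sq, PH_Sq hφ]

/-- Kameko's map `PH_n → PH_(d+2n)`, the linear map sending the functional dual to `x^s` to the
functional dual to `x^(2s+1)`. -/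
noncomputable def kam (d n : ℕ) : PH d n →ₗ[ZMod 2] PH d (d + 2 * n) where
  toFun φ := ⟨φ.1 ∘ₗ kappa d, kam_mem φ.2⟩
  map_add' _ _ := rfl
  map_smul' _ _ := rfl

/-- The subspace of `PH_n` spanned by the elements `φ w - φ`; the quotient by it is the space of
coinvariants `𝔽₂ ⊗_{GL_d} PH_n`. -/
noncomputable def rel (d n : ℕ) : Submodule (ZMod 2) (PH d n) :=
  Submodule.span (ZMod 2) {χ | ∃ (w : GL (Fin d) (ZMod 2)) (φ : PH d n),
    (χ : Module.Dual (ZMod 2) (Pol d)) = φ.1 ∘ₗ (act w).toLinearMap - φ.1}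

lemma kam_rel (d n : ℕ) : rel d n ≤ (rel d (d + 2 * n)).comap (kam d n) := by
  rw [rel, Submodule.span_le]
  rintro χ ⟨w, φ, h⟩
  apply Submodule.subset_span
  refine ⟨w, kam d n φ, ?_⟩
  change χ.1 ∘ₗ kappa d = (φ.1 ∘ₗ kappa d) ∘ₗ (act w).toLinearMap - φ.1 ∘ₗ kappa d
  rw [h]
  apply LinearMap.ext
  intro f
  simp only [LinearMap.comp_apply, LinearMap.sub_apply, AlgHom.toLinearMap_apply]
  rw [kappa_act]

/-- Kameko's squaring operation `𝔽₂ ⊗_{GL_d} PH_n → 𝔽₂ ⊗_{GL_d} PH_(d+2n)`. -/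
noncomputable def sqTilde (d n : ℕ) :
    (PH d n ⧸ rel d n) →ₗ[ZMod 2] (PH d (d + 2 * n) ⧸ rel d (d + 2 * n)) :=
  (rel d n).mapQ (rel d (d + 2 * n)) (kam d n) (kam_rel d n)

end Pool.Agent.Y460.Kam
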