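import Pool.Agent.Y460.Kam.Main

/-!
# Kameko's squaring operation is not injective on coinvariants: conclusion
-/

set_option autoImplicit false

namespace Pool.Agent.Y460.Kam

open MvPolynomial

variable {d : ℕ}

lemma cf_mon (e : Fin d) (l : List (Fin d)) :
    cf (Finsupp.single e (2 ^ l.length - 1)) (mon l) = if ∀ a ∈ l, a = e then 1 else 0 := by
  induction l with
  | nil =>
    rw [mon, cf_apply]
    simp
  | cons a l ih =>
    rw [cf_apply, mon, coeff_X_mul', List.length_cons, pow_form]
    by_cases ha : a = e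
    · subst ha
      rw [if_pos]
      · have h1 : (Finsupp.single a (2 * (2 ^ l.length - 1) + 1) - Finsupp.single a 1 : Fin d →₀ ℕ)
            = 2 • Finsupp.single a (2 ^ l.length - 1) := by
          ext i
          by_cases hi : i = a
          · subst hi
            simp
          · simp [Ne.symm hi]
        rw [h1, ← expand_zmod, coeff_expand_smul 2 (by norm_num)]
        rw [cf_apply] at ih
        rw [ih]
        simp
      · rw [Finsupp.mem_support_iff, Finsupp.single_eq_same]
        omega
    · rw [if_neg, if_neg]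
      · intro h
        exact ha (h a List.mem_cons_self)
      · rw [Finsupp.mem_support_iff, Finsupp.single_apply, if_neg (Ne.symm ha)]
        exact fun h => h rfl

lemma cf_inv (e : Fin d) {j : ℕ} (hj : d ≤ j) :
    cf (Finsupp.single e (2 ^ j - 1)) (inv d j) = 1 := by
  rw [inv, map_sum, Finset.sum_eq_single {e}]
  · have h := lst_spec j {e} (Finset.singleton_nonempty e) (by
      rw [Finset.card_singleton]
      have := e.2
      omega)
    have h2 := cf_mon e (lst j {e})
    rw [h.1] at h2
    rw [h2, if_pos]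
    intro a ha
    rw [← List.mem_toFinset, h.2, Finset.mem_singleton] at ha
    exact ha
  · intro S hS hSe
    rw [Finset.mem_filter] at hS
    have hc : S.card ≤ j := (Finset.card_le_univ S).trans (by rw [Fintype.card_fin]; exact hj)
    have h := lst_spec j S hS.2 hc
    have h2 := cf_mon e (lst j S)
    rw [h.1] at h2
    rw [h2, if_neg]
    intro hall
    apply hSe
    apply Finset.eq_singleton_iff_nonempty_unique_mem.mpr
    refine ⟨hS.2, ?_⟩
    intro x hx
    rw [← h.2, List.mem_toFinset] at hx
    exact hall x hx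
  · intro h
    exfalso
    apply h
    rw [Finset.mem_filter]
    exact ⟨Finset.mem_univ _, Finset.singleton_nonempty e⟩

lemma Rl_inv {j : ℕ} (hj : d ≤ j) {χ : Module.Dual (ZMod 2) (Pol d)}
    (hχ : χ ∈ Rl d (2 ^ j - 1)) : χ (inv d j) = 0 := by
  obtain ⟨x, hx, rfl⟩ := hχ
  induction hx using Submodule.span_induction with
  | mem x h =>
    obtain ⟨w, φ, h⟩ := h
    change x.1 (inv d j) = 0
    rw [h, LinearMap.sub_apply, LinearMap.comp_apply, AlgHom.toLinearMap_apply, act_eq,
      inv_actM hj _ (by rw [det_gl]; exact one_ne_zero) _ φ.2, sub_self]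
  | zero => rw [map_zero, LinearMap.zero_apply]
  | add x y _ _ hx hy => rw [map_add, LinearMap.add_apply, hx, hy, add_zero]
  | smul c x _ hx => rw [map_smul, LinearMap.smul_apply, hx, smul_zero]

lemma Rl_one {n : ℕ} {χ : Module.Dual (ZMod 2) (Pol d)} (hχ : χ ∈ Rl d n) : χ 1 = 0 := by
  obtain ⟨x, hx, rfl⟩ := hχ
  induction hx using Submodule.span_induction with
  | mem x h =>
    obtain ⟨w, φ, h⟩ := h
    change x.1 1 = 0
    rw [h, LinearMap.sub_apply, LinearMap.comp_apply, AlgHom.toLinearMap_apply, map_one, sub_self]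
  | zero => rw [map_zero, LinearMap.zero_apply]
  | add x y _ _ hx hy => rw [map_add, LinearMap.add_apply, hx, hy, add_zero]
  | smul c x _ hx => rw [map_smul, LinearMap.smul_apply, hx, smul_zero]

lemma not_inj {n : ℕ} (s : Fin d →₀ ℕ) (hs : cf s ∈ PH d n) (h1 : cf s ∉ Rl d n)
    (h2 : cf (2 • s + Finsupp.equivFunOnFinite.symm (fun _ => 1)) ∈ Rl d (d + 2 * n)) :
    ¬ Function.Injective (sqTilde d n) := by
  intro hinj
  have hx : sqTilde d n (Submodule.Quotient.mk ⟨cf s, hs⟩) = 0 := by
    change Submodule.Quotient.mk (kam d n ⟨cf s, hs⟩) = 0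
    rw [Submodule.Quotient.mk_eq_zero, mem_rel_iff]
    change cf s ∘ₗ kappa d ∈ _
    have h3 : cf s ∘ₗ kappa d = cf (2 • s + Finsupp.equivFunOnFinite.symm (fun _ => 1)) := by
      apply LinearMap.ext
      intro f
      exact coeff_kappa f s
    rw [h3]
    exact h2
  have h4 := hinj (hx.trans (map_zero _).symm)
  rw [Submodule.Quotient.mk_eq_zero, mem_rel_iff] at h4
  exact h1 h4

lemma four_ones {n : ℕ} (hd : 4 ≤ d) {t : Fin d →₀ ℕ} (ht : Spike t) (hn : t.degree = n)
    (h : ∀ i : Fin d, i.val < 4 → t i = 1) : cf t ∈ Rl d n := by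
  have e0 : (⟨0, by omega⟩ : Fin d).val < 4 := by norm_num
  apply cf_rel4 ht hn (p := ⟨0, by omega⟩) (q := ⟨1, by omega⟩) (r := ⟨2, by omega⟩)
    (e := ⟨3, by omega⟩)
  all_goals first
    | (apply h; norm_num)
    | (intro hh; rw [Fin.mk.injEq] at hh; omega)

theorem not_inj_zero (hd : 4 ≤ d) : ¬ Function.Injective (sqTilde d 0) := by
  have hsp : Spike (0 : Fin d →₀ ℕ) := fun _ => ⟨0, rfl⟩
  apply not_inj 0 (cf_mem' hsp (map_zero _))
  · intro h
    have h1 := Rl_one h
    rw [cf_apply, coeff_zero_one] at h1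
    exact one_ne_zero h1
  · apply four_ones hd
    · intro i
      refine ⟨1, ?_⟩
      simp
    · rw [degree_eq_sum]
      simp
    · intro i _
      simp

theorem not_inj_pow (hd : 5 ≤ d) {j : ℕ} (hj : d ≤ j) :
    ¬ Function.Injective (sqTilde d (2 ^ j - 1)) := by
  have h2j : 1 ≤ 2 ^ j := Nat.one_le_two_pow
  set e : Fin d := ⟨4, by omega⟩ with he
  have hsp : Spike (Finsupp.single e (2 ^ j - 1)) := by
    intro i
    rw [Finsupp.single_apply]
    split_ifs
    · exact ⟨j, by omega⟩
    · exact ⟨0, rfl⟩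
  apply not_inj (Finsupp.single e (2 ^ j - 1)) (cf_mem' hsp (Finsupp.degree_single _ _))
  · intro h
    have h1 := Rl_inv hj h
    rw [cf_inv e hj] at h1
    exact one_ne_zero h1
  · have hval : ∀ i : Fin d, (2 • Finsupp.single e (2 ^ j - 1)
        + Finsupp.equivFunOnFinite.symm (fun _ => 1) : Fin d →₀ ℕ) i
          = if e = i then 2 ^ (j + 1) - 1 else 1 := by
      intro i
      rw [Finsupp.add_apply, Finsupp.smul_apply, Finsupp.single_apply, smul_eq_mul]
      change 2 * (if e = i then 2 ^ j - 1 else 0) + 1 = _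
      split_ifs
      · rw [pow_form]
      · rfl
    apply four_ones (by omega)
    · intro i
      rw [hval]
      split_ifs
      · exact ⟨j + 1, by rw [pow_form, pow_succ]; omega⟩
      · exact ⟨1, rfl⟩
    · rw [map_add, map_nsmul, Finsupp.degree_single, degree_eq_sum]
      simp
      ring
    · intro i hi
      rw [hval, if_neg]
      intro h
      rw [← h, he] at hi
      simp at hi

end Pool.Agent.Y460.Kam
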