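import Pool.Agent.Y460.Kam.Defs2

/-!
# An invariant class in degree `2^j - 1`
-/

set_option autoImplicit false

namespace Pool.Agent.Y460.Kam

open MvPolynomial

variable {d : ℕ}

/-- substitution by an arbitrary matrix -/
noncomputable def actM (M : Matrix (Fin d) (Fin d) (ZMod 2)) : Pol d →ₐ[ZMod 2] Pol d :=
  aeval fun j => ∑ i, C (M i j) * X i

lemma act_eq (w : GL (Fin d) (ZMod 2)) : act w = actM (w : Matrix (Fin d) (Fin d) (ZMod 2)) := rfl

lemma actM_X (M : Matrix (Fin d) (Fin d) (ZMod 2)) (j : Fin d) :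
    actM M (X j) = ∑ i, C (M i j) * X i := by
  rw [actM, aeval_X]

lemma actM_mem (M : Matrix (Fin d) (Fin d) (ZMod 2)) {m : ℕ} {f : Pol d}
    (hf : f ∈ homogeneousSubmodule (Fin d) (ZMod 2) m) :
    actM M f ∈ homogeneousSubmodule (Fin d) (ZMod 2) m := by
  have h := IsHomogeneous.aeval (σ := Fin d) (τ := Fin d) (R := ZMod 2) (m := m) (n := 1) hf
    (fun j => ∑ i, C (M i j) * X i) (by
      intro j
      apply IsHomogeneous.sum
      intro i _
      have := (isHomogeneous_C (Fin d) (M i j)).mul (isHomogeneous_X (ZMod 2) i)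
      rwa [zero_add] at this)
  rw [one_mul] at h
  exact h

lemma actM_Sq (M : Matrix (Fin d) (Fin d) (ZMod 2)) (f : Pol d) :
    actM M (Sq d f) = Sq d (actM M f) := by
  have h : (actM M).comp (Sq d) = (Sq d).comp (actM M) := by
    apply MvPolynomial.algHom_ext
    intro j
    rw [AlgHom.comp_apply, AlgHom.comp_apply, Sq_X, map_add, map_pow, actM_X, map_sum]
    have : (∑ i, C (M i j) * X i : Pol d) ^ 2 = ∑ i, C (M i j) * X i ^ 2 := by
      rw [sum_pow_char]
      apply Finset.sum_congr rfl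
      intro i _
      rw [mul_pow, c_sq]
    rw [this, ← Finset.sum_add_distrib]
    apply Finset.sum_congr rfl
    intro i _
    rw [map_mul, Sq_X, Sq, aeval_C, algebraMap_eq]
    ring
  exact congrArg (fun F => F f) h

lemma actM_dual_mem {n : ℕ} (M : Matrix (Fin d) (Fin d) (ZMod 2))
    {φ : Module.Dual (ZMod 2) (Pol d)} (hφ : φ ∈ PH d n) :
    φ ∘ₗ (actM M).toLinearMap ∈ PH d n := by
  apply mem_PH_of
  · intro m hm f hf
    exact hφ.1 m hm _ (actM_mem M hf)
  · intro f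
    rw [LinearMap.comp_apply, LinearMap.comp_apply, AlgHom.toLinearMap_apply,
      AlgHom.toLinearMap_apply, actM_Sq, PH_Sq hφ]

lemma actM_mul (A B : Matrix (Fin d) (Fin d) (ZMod 2)) (f : Pol d) :
    actM (A * B) f = actM A (actM B f) := by
  have h : actM (A * B) = (actM A).comp (actM B) := by
    apply MvPolynomial.algHom_ext
    intro j
    rw [AlgHom.comp_apply, actM_X, actM_X, map_sum]
    simp_rw [map_mul, actM_X, actM, aeval_C, algebraMap_eq, Finset.mul_sum]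
    rw [Finset.sum_comm]
    apply Finset.sum_congr rfl
    intro i _
    rw [Matrix.mul_apply, map_sum, Finset.sum_mul]
    apply Finset.sum_congr rfl
    intro k _
    rw [map_mul]
    ring
  rw [h]
  rfl

lemma actM_one (f : Pol d) : actM (1 : Matrix (Fin d) (Fin d) (ZMod 2)) f = f := by
  have h : actM (1 : Matrix (Fin d) (Fin d) (ZMod 2)) = AlgHom.id _ _ := by
    apply MvPolynomial.algHom_ext
    intro j
    rw [actM_X, Finset.sum_eq_single j]
    · simp
    · intro i _ hi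
      rw [Matrix.one_apply_ne hi]
      simp
    · intro h
      exact absurd (Finset.mem_univ j) h
  rw [h]
  rfl

/-! ### The operators `D_a` -/

/-- `D_a ψ (g) = ψ (x_a g²)` -/
noncomputable def D (a : Fin d) (ψ : Module.Dual (ZMod 2) (Pol d)) :
    Module.Dual (ZMod 2) (Pol d) where
  toFun g := ψ (X a * g ^ 2)
  map_add' g h := by
    have : (g + h) ^ 2 = g ^ 2 + h ^ 2 := add_pow_char g h 2
    rw [this, mul_add, map_add]
  map_smul' c g := by
    have hc : c ^ 2 = c := by revert c; decide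
    rw [smul_pow, hc, mul_smul_comm, map_smul]
    rfl

lemma D_apply (a : Fin d) (ψ : Module.Dual (ZMod 2) (Pol d)) (g : Pol d) :
    D a ψ g = ψ (X a * g ^ 2) := rfl

lemma deg_lem {ψ : Module.Dual (ZMod 2) (Pol d)} {n : ℕ} (hψ : ψ ∈ H d n) {m : ℕ} {f : Pol d}
    (hf : f.IsHomogeneous m) (hm : m ≠ n) : ψ f = 0 := hψ m hm f hf

/-- a functional of degree `n` kills `u g^(2^e)` when `u` is homogeneous of degree not congruent
to `n` modulo `2^e` -/
lemma cong_lem {ψ : Module.Dual (ZMod 2) (Pol d)} {n : ℕ} (hψ : ψ ∈ H d n) {m e : ℕ} {u : Pol d}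
    (hu : u.IsHomogeneous m) (hm : ¬ m % 2 ^ e = n % 2 ^ e) (g : Pol d) :
    ψ (u * g ^ (2 ^ e)) = 0 := by
  induction g using MvPolynomial.induction_on' with
  | monomial t a =>
    apply deg_lem hψ (hu.mul ((isHomogeneous_monomial a (n := t.degree) rfl).pow (2 ^ e)))
    intro h
    apply hm
    rw [← h]
    simp
  | add p q hp hq =>
    have : (p + q) ^ 2 ^ e = p ^ 2 ^ e + q ^ 2 ^ e := add_pow_char_pow p q 2 e
    rw [this, mul_add, map_add, hp, hq, add_zero]

lemma D_mem {ψ : Module.Dual (ZMod 2) (Pol d)} {m : ℕ} (hψ : ψ ∈ PH d (2 * m + 1)) (a : Fin d) :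
    D a ψ ∈ PH d m := by
  apply mem_PH_of
  · intro k hk f hf
    rw [D_apply]
    apply deg_lem hψ.1 ((isHomogeneous_X (ZMod 2) a).mul
      (((mem_homogeneousSubmodule _ _).mp hf).pow 2))
    omega
  · intro f
    rw [D_apply, D_apply]
    have h1 := PH_Sq hψ (X a * f ^ 2)
    rw [map_mul (Sq d), Sq_X, map_pow (Sq d), add_mul, map_add] at h1
    have h2 : ψ (X a ^ 2 * Sq d f ^ 2) = 0 := by
      have := cong_lem (e := 1) hψ.1 ((isHomogeneous_X (ZMod 2) a).pow 2) (by omega) (Sq d f)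
      simpa using this
    rw [h2, add_zero] at h1
    exact h1

lemma D_comm {ψ : Module.Dual (ZMod 2) (Pol d)} {m : ℕ} (hψ : ψ ∈ PH d (4 * m + 3))
    (a b : Fin d) : D a (D b ψ) = D b (D a ψ) := by
  have hψ' : ψ ∈ PH d (2 * (2 * m + 1) + 1) := by
    have : 4 * m + 3 = 2 * (2 * m + 1) + 1 := by ring
    rwa [this] at hψ
  have hab : D a (D b ψ) ∈ PH d m := D_mem (D_mem hψ' b) a
  have hba : D b (D a ψ) ∈ PH d m := D_mem (D_mem hψ' a) b
  apply LinearMap.ext
  intro R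
  rw [← PH_Sq hab R, ← PH_Sq hba R]
  set S := Sq d R with hS
  rw [D_apply, D_apply, D_apply, D_apply]
  have h1 := PH_Sq hψ (X a * X b * R ^ 4)
  have h0 : ψ (X a * X b * R ^ 4) = 0 := by
    have := cong_lem (e := 2) hψ.1 ((isHomogeneous_X (ZMod 2) a).mul (isHomogeneous_X (ZMod 2) b))
      (by omega) R
    simpa using this
  rw [h0, map_mul (Sq d), map_mul (Sq d), map_pow (Sq d), Sq_X, Sq_X, ← hS] at h1
  have e1 : (X a + X a ^ 2) * (X b + X b ^ 2) * S ^ 4
      = (X a * X b * S ^ 4 + X a ^ 2 * X b ^ 2 * S ^ 4)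
        + (X b * (X a * S ^ 2) ^ 2 + X a * (X b * S ^ 2) ^ 2) := by ring
  rw [e1, map_add, map_add] at h1
  have h2 : ψ (X a * X b * S ^ 4) = 0 := by
    have := cong_lem (e := 2) hψ.1 ((isHomogeneous_X (ZMod 2) a).mul (isHomogeneous_X (ZMod 2) b))
      (by omega) S
    simpa using this
  have h3 : ψ (X a ^ 2 * X b ^ 2 * S ^ 4) = 0 := by
    have := cong_lem (e := 2) hψ.1
      (((isHomogeneous_X (ZMod 2) a).pow 2).mul ((isHomogeneous_X (ZMod 2) b).pow 2))
      (by omega) S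
    simpa using this
  rw [h2, h3, add_zero, zero_add, map_add] at h1
  have h4 : ∀ x y : ZMod 2, x + y = 0 → x = y := by decide
  exact h4 _ _ h1

lemma D_rel {ψ : Module.Dual (ZMod 2) (Pol d)} {m : ℕ} (hψ : ψ ∈ PH d (8 * m + 7))
    (a b : Fin d) : D b (D a (D a ψ)) = D a (D b (D b ψ)) := by
  have hψ' : ψ ∈ PH d (2 * (2 * (2 * m + 1) + 1) + 1) := by
    have : 8 * m + 7 = 2 * (2 * (2 * m + 1) + 1) + 1 := by ring
    rwa [this] at hψ
  have h1m : D b (D a (D a ψ)) ∈ PH d m := D_mem (D_mem (D_mem hψ' a) a) b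
  have h2m : D a (D b (D b ψ)) ∈ PH d m := D_mem (D_mem (D_mem hψ' b) b) a
  apply LinearMap.ext
  intro R
  rw [← PH_Sq h1m R, ← PH_Sq h2m R]
  set S := Sq d R with hS
  simp only [D_apply]
  have h1 := PH_Sq hψ (X a ^ 3 * X b ^ 3 * R ^ 8)
  have hX : ∀ i k : ℕ, (X a ^ i * X b ^ k : Pol d).IsHomogeneous (i + k) := by
    intro i k
    have := ((isHomogeneous_X (ZMod 2) a).pow i).mul ((isHomogeneous_X (ZMod 2) b).pow k)
    simpa using this
  have hz : ∀ i k : ℕ, (i + k) % 8 ≠ 7 → ∀ T : Pol d, ψ (X a ^ i * X b ^ k * T ^ 8) = 0 := by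
    intro i k hik T
    have := cong_lem (e := 3) hψ.1 (hX i k) (by omega) T
    simpa using this
  rw [hz 3 3 (by norm_num), map_mul (Sq d), map_mul (Sq d), map_pow (Sq d), map_pow (Sq d),
    map_pow (Sq d), Sq_X, Sq_X, ← hS] at h1
  have h2 : (2 : Pol d) = 0 := by
    have := CharP.cast_eq_zero (Pol d) 2
    simpa using this
  have e1 : (X a + X a ^ 2) ^ 3 * (X b + X b ^ 2) ^ 3 * S ^ 8
      = (X a ^ 3 * X b ^ 3 * S ^ 8 + X a ^ 3 * X b ^ 5 * S ^ 8 + X a ^ 3 * X b ^ 6 * S ^ 8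
        + X a ^ 5 * X b ^ 3 * S ^ 8 + X a ^ 5 * X b ^ 4 * S ^ 8 + X a ^ 5 * X b ^ 5 * S ^ 8
        + X a ^ 5 * X b ^ 6 * S ^ 8 + X a ^ 4 * X b ^ 4 * S ^ 8 + X a ^ 4 * X b ^ 5 * S ^ 8
        + X a ^ 4 * X b ^ 6 * S ^ 8 + X a ^ 6 * X b ^ 3 * S ^ 8 + X a ^ 6 * X b ^ 4 * S ^ 8
        + X a ^ 6 * X b ^ 5 * S ^ 8 + X a ^ 6 * X b ^ 6 * S ^ 8)
        + (X a * (X a * (X b * S ^ 2) ^ 2) ^ 2 + X b * (X b * (X a * S ^ 2) ^ 2) ^ 2) := by
    have e2 : (X a + X a ^ 2 : Pol d) ^ 3 = X a ^ 3 + X a ^ 5 + X a ^ 4 + X a ^ 6 := by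
      linear_combination (X a ^ 4 + X a ^ 5) * h2
    have e3 : (X b + X b ^ 2 : Pol d) ^ 3 = X b ^ 3 + X b ^ 5 + X b ^ 4 + X b ^ 6 := by
      linear_combination (X b ^ 4 + X b ^ 5) * h2
    rw [e2, e3]
    ring
  rw [e1, map_add] at h1
  simp only [map_add] at h1
  rw [hz 3 3 (by norm_num), hz 3 5 (by norm_num), hz 3 6 (by norm_num), hz 5 3 (by norm_num),
    hz 5 4 (by norm_num), hz 5 5 (by norm_num), hz 5 6 (by norm_num), hz 4 4 (by norm_num),
    hz 4 5 (by norm_num), hz 4 6 (by norm_num), hz 6 3 (by norm_num), hz 6 4 (by norm_num),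
    hz 6 5 (by norm_num), hz 6 6 (by norm_num)] at h1
  simp only [add_zero, zero_add] at h1
  have h4 : ∀ x y : ZMod 2, x + y = 0 → x = y := by decide
  exact h4 _ _ h1

end Pool.Agent.Y460.Kam
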