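import Pool.Agent.Y460.Kam.Inv

/-!
# An invariant class in degree `2^j - 1`, continued
-/

set_option autoImplicit false

namespace Pool.Agent.Y460.Kam

open MvPolynomial

variable {d : ℕ}

/-- `x_{a_0} x_{a_1}^2 x_{a_2}^4 ⋯` -/
noncomputable def mon : List (Fin d) → Pol d
  | [] => 1
  | a :: l => X a * mon l ^ 2

lemma mon_cons (ψ : Module.Dual (ZMod 2) (Pol d)) (a : Fin d) (l : List (Fin d)) :
    ψ (mon (a :: l)) = D a ψ (mon l) := rfl

lemma pow_form (k : ℕ) : 2 ^ (k + 1) - 1 = 2 * (2 ^ k - 1) + 1 := by
  have : 1 ≤ 2 ^ k := Nat.one_le_two_pow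
  rw [pow_succ]
  omega

lemma D_mem' {ψ : Module.Dual (ZMod 2) (Pol d)} {k : ℕ} (hψ : ψ ∈ PH d (2 ^ (k + 1) - 1))
    (a : Fin d) : D a ψ ∈ PH d (2 ^ k - 1) := by
  rw [pow_form] at hψ
  exact D_mem hψ a

lemma perm_eq {l l' : List (Fin d)} (h : l.Perm l') :
    ∀ ψ ∈ PH d (2 ^ l.length - 1), ψ (mon l) = ψ (mon l') := by
  induction h with
  | nil => intro _ _; rfl
  | cons x h ih =>
    intro ψ hψ
    rw [mon_cons, mon_cons]
    exact ih _ (D_mem' hψ x)
  | swap x y l =>
    intro ψ hψ
    rw [mon_cons, mon_cons, mon_cons, mon_cons]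
    have hk : 2 ^ (y :: x :: l).length - 1 = 4 * (2 ^ l.length - 1) + 3 := by
      have : 1 ≤ 2 ^ l.length := Nat.one_le_two_pow
      rw [List.length_cons, List.length_cons, pow_succ, pow_succ]
      omega
    rw [hk] at hψ
    rw [D_comm hψ]
  | trans h1 h2 ih1 ih2 =>
    intro ψ hψ
    rw [ih1 ψ hψ]
    rw [h1.length_eq] at hψ
    exact ih2 ψ hψ

lemma aab {ψ : Module.Dual (ZMod 2) (Pol d)} (a b : Fin d) (l : List (Fin d))
    (hψ : ψ ∈ PH d (2 ^ (l.length + 3) - 1)) :
    ψ (mon (a :: a :: b :: l)) = ψ (mon (b :: b :: a :: l)) := by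
  rw [mon_cons, mon_cons, mon_cons, mon_cons, mon_cons, mon_cons]
  have hk : 2 ^ (l.length + 3) - 1 = 8 * (2 ^ l.length - 1) + 7 := by
    have : 1 ≤ 2 ^ l.length := Nat.one_le_two_pow
    rw [pow_succ, pow_succ, pow_succ]
    omega
  rw [hk] at hψ
  rw [D_rel hψ]

lemma replace_head (a x : Fin d) (L : List (Fin d)) (ha : a ∈ L) (hx : x ∈ L) :
    ∀ ψ ∈ PH d (2 ^ (L.length + 1) - 1), ψ (mon (x :: L)) = ψ (mon (a :: L)) := by
  intro ψ hψ
  by_cases hax : x = a
  · rw [hax]
  obtain ⟨L1, hL1⟩ : ∃ L1, L.Perm (x :: L1) := ⟨L.erase x, List.perm_cons_erase hx⟩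
  have ha1 : a ∈ L1 := by
    have := (hL1.mem_iff (a := a)).mp ha
    rcases List.mem_cons.mp this with h | h
    · exact absurd h.symm hax
    · exact h
  obtain ⟨L2, hL2⟩ : ∃ L2, L1.Perm (a :: L2) := ⟨L1.erase a, List.perm_cons_erase ha1⟩
  have hL : L.Perm (x :: a :: L2) := hL1.trans (hL2.cons x)
  have hlen : L.length = L2.length + 2 := by rw [hL.length_eq]; rfl
  have e1 : ψ (mon (x :: L)) = ψ (mon (x :: x :: a :: L2)) :=
    perm_eq (hL.cons x) ψ (by rw [List.length_cons]; exact hψ)
  have e2 : ψ (mon (a :: L)) = ψ (mon (a :: x :: a :: L2)) :=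
    perm_eq (hL.cons a) ψ (by rw [List.length_cons]; exact hψ)
  have e3 : ψ (mon (a :: x :: a :: L2)) = ψ (mon (a :: a :: x :: L2)) :=
    perm_eq ((List.Perm.swap a x L2).cons a) ψ (by
      simp only [List.length_cons]
      rw [hlen] at hψ
      exact hψ)
  rw [e1, e2, e3]
  apply aab
  rw [hlen] at hψ
  exact hψ

lemma replace_all (a : Fin d) (L m : List (Fin d)) (ha : a ∈ L) (hm : ∀ x ∈ m, x ∈ L) :
    ∀ ψ ∈ PH d (2 ^ (m.length + L.length) - 1),
      ψ (mon (m ++ L)) = ψ (mon (List.replicate m.length a ++ L)) := by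
  induction m with
  | nil => intro _ _; rfl
  | cons x m ih =>
    intro ψ hψ
    have hψ' : ψ ∈ PH d (2 ^ ((m ++ L).length + 1) - 1) := by
      rw [List.length_append]
      rw [List.length_cons] at hψ
      convert hψ using 3
      ring
    rw [List.cons_append, replace_head a x (m ++ L) (List.mem_append_right _ ha)
      (List.mem_append_right _ (hm x List.mem_cons_self)) ψ hψ', mon_cons]
    have hD := D_mem' hψ' a
    rw [List.length_append] at hD
    rw [ih (fun y hy => hm y (List.mem_cons_of_mem x hy)) _ hD]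
    rfl

lemma same_support {l l' : List (Fin d)} (hlen : l.length = l'.length)
    (hs : l.toFinset = l'.toFinset) :
    ∀ ψ ∈ PH d (2 ^ l.length - 1), ψ (mon l) = ψ (mon l') := by
  intro ψ hψ
  rcases l with _ | ⟨a, l0⟩
  · have : l' = [] := by
      apply List.length_eq_zero_iff.mp
      rw [← hlen]
      rfl
    rw [this]
  set l := a :: l0 with hl
  have ha : a ∈ l := List.mem_cons_self
  have ha' : a ∈ l' := by
    rw [← List.mem_toFinset, ← hs, List.mem_toFinset]
    exact ha
  obtain ⟨m, hm⟩ := (List.dedup_sublist l).exists_perm_append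
  obtain ⟨m', hm'⟩ := (List.dedup_sublist l').exists_perm_append
  have hm2 : l.Perm (m ++ l.dedup) := hm.trans List.perm_append_comm
  have hm2' : l'.Perm (m' ++ l'.dedup) := hm'.trans List.perm_append_comm
  have hmm : ∀ x ∈ m, x ∈ l.dedup := by
    intro x hx
    rw [List.mem_dedup]
    exact (hm2.mem_iff).mpr (List.mem_append_left _ hx)
  have hmm' : ∀ x ∈ m', x ∈ l'.dedup := by
    intro x hx
    rw [List.mem_dedup]
    exact (hm2'.mem_iff).mpr (List.mem_append_left _ hx)
  have hdd : l.dedup.Perm l'.dedup := by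
    apply (List.perm_ext_iff_of_nodup (List.nodup_dedup l) (List.nodup_dedup l')).mpr
    intro x
    rw [List.mem_dedup, List.mem_dedup, ← List.mem_toFinset, hs, List.mem_toFinset]
  have hlm : l.length = m.length + l.dedup.length := by
    rw [hm2.length_eq, List.length_append]
  have hlm' : l'.length = m'.length + l'.dedup.length := by
    rw [hm2'.length_eq, List.length_append]
  have hmeq : m.length = m'.length := by
    have := hdd.length_eq
    omega
  rw [perm_eq hm2 ψ hψ, replace_all a l.dedup m (List.mem_dedup.mpr ha) hmm ψ (by rw [← hlm]; exact hψ)]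
  rw [hlen] at hψ
  rw [perm_eq hm2' ψ hψ, replace_all a l'.dedup m' (List.mem_dedup.mpr ha') hmm' ψ
    (by rw [← hlm']; exact hψ)]
  rw [hmeq]
  apply perm_eq (hdd.append_left _)
  rw [List.length_append, List.length_replicate, hdd.length_eq, ← hlm']
  exact hψ

lemma exists_list (S : Finset (Fin d)) (j : ℕ) (hS : S.Nonempty) (hj : S.card ≤ j) :
    ∃ l : List (Fin d), l.length = j ∧ l.toFinset = S := by
  obtain ⟨a, ha⟩ := hS
  refine ⟨List.replicate (j - S.card) a ++ S.toList, ?_, ?_⟩
  · rw [List.length_append, List.length_replicate, Finset.length_toList]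
    omega
  · ext x
    rw [List.mem_toFinset, List.mem_append, Finset.mem_toList]
    constructor
    · rintro (h | h)
      · rw [List.eq_of_mem_replicate h]
        exact ha
      · exact h
    · intro h
      exact Or.inr h

open Classical in
/-- a list of length `j` with support `S` -/
noncomputable def lst (j : ℕ) (S : Finset (Fin d)) : List (Fin d) :=
  if h : ∃ l : List (Fin d), l.length = j ∧ l.toFinset = S then h.choose else []

lemma lst_spec (j : ℕ) (S : Finset (Fin d)) (hS : S.Nonempty) (hj : S.card ≤ j) :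
    (lst j S).length = j ∧ (lst j S).toFinset = S := by
  have h := exists_list S j hS hj
  rw [lst, dif_pos h]
  exact h.choose_spec

/-- the invariant class -/
noncomputable def inv (d j : ℕ) : Pol d :=
  ∑ S ∈ (Finset.univ : Finset (Finset (Fin d))).filter (fun S => S.Nonempty), mon (lst j S)

/-- the substitution `x_p ↦ x_p + x_q` -/
noncomputable def T (p q : Fin d) : Pol d →ₐ[ZMod 2] Pol d :=
  actM (Matrix.transvection q p (1 : ZMod 2))

lemma T_self {p q : Fin d} (hpq : p ≠ q) : T p q (X p) = X p + X q := by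
  rw [T, actM_X, Matrix.transvection]
  have h : ∀ i, (C ((1 + Matrix.single q p (1 : ZMod 2) : Matrix (Fin d) (Fin d) (ZMod 2)) i p)
      * X i : Pol d) = (if i = p then X i else 0) + (if i = q then X i else 0) := by
    intro i
    rw [Matrix.add_apply]
    by_cases h1 : i = p
    · subst h1
      rw [if_pos rfl, if_neg hpq, Matrix.one_apply_eq, Matrix.single_apply_of_row_ne (Ne.symm hpq)]
      simp
    · rw [if_neg h1, Matrix.one_apply_ne h1]
      by_cases h2 : i = q
      · subst h2
        rw [if_pos rfl, Matrix.single_apply_same]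
        simp
      · rw [if_neg h2, Matrix.single_apply_of_row_ne (Ne.symm h2)]
        simp
  rw [Finset.sum_congr rfl (fun i _ => h i), Finset.sum_add_distrib]
  simp

lemma T_other {p q r : Fin d} (hr : r ≠ p) : T p q (X r) = X r := by
  rw [T, actM_X, Matrix.transvection]
  have h : ∀ i, (C ((1 + Matrix.single q p (1 : ZMod 2) : Matrix (Fin d) (Fin d) (ZMod 2)) i r)
      * X i : Pol d) = (if i = r then X i else 0) := by
    intro i
    rw [Matrix.add_apply, Matrix.single_apply_of_col_ne _ _ (Ne.symm hr), add_zero]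
    by_cases h1 : i = r
    · subst h1
      rw [if_pos rfl, Matrix.one_apply_eq]
      simp
    · rw [if_neg h1, Matrix.one_apply_ne h1]
      simp
  rw [Finset.sum_congr rfl (fun i _ => h i)]
  simp

lemma T_mon {p q : Fin d} (l : List (Fin d)) (hl : p ∉ l) : T p q (mon l) = mon l := by
  induction l with
  | nil => rw [mon, map_one]
  | cons a l ih =>
    rw [mon, map_mul, map_pow, ih (fun h => hl (List.mem_cons_of_mem a h)), T_other]
    rintro rfl
    exact hl List.mem_cons_self

lemma T_dual {n : ℕ} {p q : Fin d} {ψ : Module.Dual (ZMod 2) (Pol d)} (hψ : ψ ∈ PH d n) :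
    ψ ∘ₗ (T p q).toLinearMap ∈ PH d n := actM_dual_mem _ hψ

lemma T_cons {p q : Fin d} (hpq : p ≠ q) (ψ : Module.Dual (ZMod 2) (Pol d)) (l : List (Fin d))
    (hl : p ∉ l) : ψ (T p q (mon (p :: l))) = ψ (mon (p :: l)) + ψ (mon (q :: l)) := by
  rw [mon, map_mul, map_pow, T_mon l hl, T_self hpq, add_mul, map_add]
  rfl

lemma T_replicate {p q : Fin d} (hpq : p ≠ q) (j : ℕ) :
    ∀ ψ ∈ PH d (2 ^ (j + 1) - 1), ψ (T p q (mon (List.replicate (j + 1) p)))
      = ψ (mon (List.replicate (j + 1) p)) + ψ (mon (List.replicate (j + 1) q)) := by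
  induction j with
  | zero =>
    intro ψ _
    have := T_cons hpq ψ [] (by simp)
    exact this
  | succ j ih =>
    intro ψ hψ
    have h1 : ψ (T p q (mon (List.replicate (j + 1 + 1) p)))
        = D p ψ (T p q (mon (List.replicate (j + 1) p)))
          + D q ψ (T p q (mon (List.replicate (j + 1) p))) := by
      rw [List.replicate_succ, mon, map_mul, map_pow, T_self hpq, add_mul, map_add]
      rfl
    rw [h1, ih _ (D_mem' hψ p), ih _ (D_mem' hψ q)]
    rw [← mon_cons, ← mon_cons, ← mon_cons, ← mon_cons]
    have h2 : ψ (mon (p :: List.replicate (j + 1) q)) = ψ (mon (q :: List.replicate (j + 1) p)) := by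
      apply same_support
      · simp
      · ext x
        simp [List.mem_replicate]
        tauto
      · simpa using hψ
    rw [h2, ← List.replicate_succ, ← List.replicate_succ]
    have h3 : ∀ x y z : ZMod 2, x + y + (y + z) = x + z := by decide
    exact h3 _ _ _

lemma T_lst {p q : Fin d} (hpq : p ≠ q) {j : ℕ} (hj : d ≤ j) (S : Finset (Fin d)) (hp : p ∈ S)
    {ψ : Module.Dual (ZMod 2) (Pol d)} (hψ : ψ ∈ PH d (2 ^ j - 1)) :
    ψ (T p q (mon (lst j S))) = ψ (mon (lst j S)) + ψ (mon (lst j (insert q (S.erase p)))) := by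
  have hcard : ∀ U : Finset (Fin d), U.card ≤ j := fun U =>
    (Finset.card_le_univ U).trans (by rw [Fintype.card_fin]; exact hj)
  obtain ⟨hl1, hl2⟩ := lst_spec j S ⟨p, hp⟩ (hcard S)
  obtain ⟨hl3, hl4⟩ := lst_spec j (insert q (S.erase p)) ⟨q, Finset.mem_insert_self _ _⟩
    (hcard _)
  have hjpos : 0 < j := lt_of_lt_of_le (Fin.pos p) hj
  obtain ⟨k, rfl⟩ : ∃ k, j = k + 1 := ⟨j - 1, by omega⟩
  have hT : ∀ l : List (Fin d), l.length = k + 1 → l.toFinset = S →
      ψ (T p q (mon (lst (k + 1) S))) = ψ (T p q (mon l)) := by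
    intro l h1 h2
    exact same_support (hl1.trans h1.symm) (hl2.trans h2.symm) (ψ ∘ₗ (T p q).toLinearMap)
      (by rw [hl1]; exact T_dual hψ)
  have hS : ∀ l : List (Fin d), l.length = k + 1 → l.toFinset = S →
      ψ (mon (lst (k + 1) S)) = ψ (mon l) := by
    intro l h1 h2
    exact same_support (hl1.trans h1.symm) (hl2.trans h2.symm) ψ (by rw [hl1]; exact hψ)
  have hS' : ∀ l : List (Fin d), l.length = k + 1 → l.toFinset = insert q (S.erase p) →
      ψ (mon (lst (k + 1) (insert q (S.erase p)))) = ψ (mon l) := by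
    intro l h1 h2
    exact same_support (hl3.trans h1.symm) (hl4.trans h2.symm) ψ (by rw [hl3]; exact hψ)
  by_cases he : (S.erase p).Nonempty
  · have hk : (S.erase p).card ≤ k := by
      rw [Finset.card_erase_of_mem hp]
      have := hcard S
      omega
    obtain ⟨l, h1, h2⟩ := exists_list (S.erase p) k he hk
    have hpl : p ∉ l := by
      rw [← List.mem_toFinset, h2]
      exact Finset.notMem_erase p S
    rw [hT (p :: l) (by rw [List.length_cons, h1]) (by
        rw [List.toFinset_cons, h2, Finset.insert_erase hp]),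
      hS (p :: l) (by rw [List.length_cons, h1]) (by
        rw [List.toFinset_cons, h2, Finset.insert_erase hp]),
      hS' (q :: l) (by rw [List.length_cons, h1]) (by rw [List.toFinset_cons, h2]),
      T_cons hpq ψ l hpl]
  · rw [Finset.not_nonempty_iff_eq_empty] at he
    have hSp : S = {p} := by
      rw [← Finset.insert_erase hp, he]
      rfl
    have hr : ∀ r : Fin d, (List.replicate (k + 1) r).toFinset = {r} := by
      intro r
      ext x
      simp [List.mem_replicate]
    rw [hT (List.replicate (k + 1) p) (by simp) (by rw [hr, hSp]),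
      hS (List.replicate (k + 1) p) (by simp) (by rw [hr, hSp]),
      hS' (List.replicate (k + 1) q) (by simp) (by rw [hr, he]; rfl),
      T_replicate hpq k ψ hψ]

lemma T_inv {p q : Fin d} (hpq : p ≠ q) {j : ℕ} (hj : d ≤ j)
    {ψ : Module.Dual (ZMod 2) (Pol d)} (hψ : ψ ∈ PH d (2 ^ j - 1)) :
    ψ (T p q (inv d j)) = ψ (inv d j) := by
  have hcard : ∀ U : Finset (Fin d), U.card ≤ j := fun U =>
    (Finset.card_le_univ U).trans (by rw [Fintype.card_fin]; exact hj)
  rw [inv, map_sum, map_sum, map_sum]
  have h1 : ∀ S ∈ (Finset.univ : Finset (Finset (Fin d))).filter (fun S => S.Nonempty),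
      ψ (T p q (mon (lst j S))) = ψ (mon (lst j S))
        + if p ∈ S then ψ (mon (lst j (insert q (S.erase p)))) else 0 := by
    intro S hS
    split_ifs with hp
    · exact T_lst hpq hj S hp hψ
    · rw [T_mon, add_zero]
      rw [← List.mem_toFinset, (lst_spec j S (Finset.mem_filter.mp hS).2 (hcard S)).2]
      exact hp
  rw [Finset.sum_congr rfl h1, Finset.sum_add_distrib]
  have h2 : ∑ S ∈ (Finset.univ : Finset (Finset (Fin d))).filter (fun S => S.Nonempty),
      (if p ∈ S then ψ (mon (lst j (insert q (S.erase p)))) else 0) = 0 := by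
    rw [Finset.sum_subset (Finset.filter_subset _ _)]
    · apply Finset.sum_involution (fun S _ => if q ∈ S then S.erase q else insert q S)
      · intro S hS
        have e1 : (p ∈ if q ∈ S then S.erase q else insert q S) ↔ p ∈ S := by
          split_ifs
          · rw [Finset.mem_erase]
            exact ⟨fun h => h.2, fun h => ⟨hpq, h⟩⟩
          · rw [Finset.mem_insert]
            exact ⟨fun h => h.resolve_left hpq, fun h => Or.inr h⟩
        have e2 : insert q ((if q ∈ S then S.erase q else insert q S).erase p)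
            = insert q (S.erase p) := by
          split_ifs with hq
          · ext x
            simp only [Finset.mem_insert, Finset.mem_erase]
            tauto
          · ext x
            simp only [Finset.mem_insert, Finset.mem_erase]
            tauto
        simp only [e1, e2]
        split_ifs
        · exact CharTwo.add_self_eq_zero _
        · exact add_zero 0
      · intro S hS _ hcon
        by_cases hq : q ∈ S
        · rw [if_pos hq] at hcon
          have := Finset.notMem_erase q S
          rw [hcon] at this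
          exact this hq
        · rw [if_neg hq] at hcon
          have := Finset.mem_insert_self q S
          rw [hcon] at this
          exact hq this
      · intro S hS
        by_cases hq : q ∈ S
        · simp only [if_pos hq, if_neg (Finset.notMem_erase q S), Finset.insert_erase hq]
        · simp only [if_neg hq, if_pos (Finset.mem_insert_self q S), Finset.erase_insert hq]
      · intro S hS
        exact Finset.mem_univ _
    · intro S _ hS
      rw [if_neg]
      intro hp
      exact hS (Finset.mem_filter.mpr ⟨Finset.mem_univ _, ⟨p, hp⟩⟩)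
  rw [h2, add_zero]

end Pool.Agent.Y460.Kam
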