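import Pool.Agent.Y460.Kam.Defs

/-!
# Basic properties of the total square, the substitution action and Kameko's map
-/

set_option autoImplicit false

namespace Pool.Agent.Y460.Kam

open MvPolynomial

variable {d : ℕ}

lemma kappa_monomial (t : Fin d →₀ ℕ) :
    kappa d (monomial t 1) =
      if ∀ i, Odd (t i) then monomial (t.mapRange (fun a => a / 2) rfl) 1 else 0 := by
  have h : (monomial t (1 : ZMod 2)) = basisMonomials (Fin d) (ZMod 2) t := by
    rw [coe_basisMonomials]
  rw [h, kappa, Module.Basis.constr_basis]

/-- Induction principle for linear statements. -/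
lemma lin_ext {M : Type*} [AddCommGroup M] [Module (ZMod 2) M] {f g : Pol d →ₗ[ZMod 2] M}
    (h : ∀ t, f (monomial t 1) = g (monomial t 1)) : f = g := by
  apply (basisMonomials (Fin d) (ZMod 2)).ext
  intro t
  rw [coe_basisMonomials]
  exact h t

/-- The coefficient of `x^s` in `κ f` is the coefficient of `x^(2s+1)` in `f`. -/
lemma coeff_kappa (f : Pol d) (s : Fin d →₀ ℕ) :
    coeff s (kappa d f) = coeff (2 • s + Finsupp.equivFunOnFinite.symm (fun _ => 1)) f := by
  have h : (lcoeff (ZMod 2) s : Pol d →ₗ[ZMod 2] ZMod 2) ∘ₗ kappa d
      = lcoeff (ZMod 2) (2 • s + Finsupp.equivFunOnFinite.symm (fun _ => 1)) := by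
    apply lin_ext
    intro t
    rw [LinearMap.comp_apply, kappa_monomial, lcoeff_apply, lcoeff_apply, coeff_monomial]
    by_cases ht : t = 2 • s + Finsupp.equivFunOnFinite.symm (fun _ => 1)
    · subst ht
      rw [if_pos rfl, if_pos]
      · rw [coeff_monomial, if_pos]
        ext i
        simp [Finsupp.mapRange_apply]
        omega
      · intro i
        simp
    · rw [if_neg ht]
      split_ifs with h1
      · rw [coeff_monomial, if_neg]
        rintro rfl
        apply ht
        ext i
        have := h1 i
        obtain ⟨k, hk⟩ := this
        simp [Finsupp.mapRange_apply]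
        omega
      · simp
  have := congrArg (fun F => F f) h
  simpa using this

/-- Cartier property: `κ (g² f) = g κ f`. -/
lemma kappa_sq_mul (g f : Pol d) : kappa d (g ^ 2 * f) = g * kappa d f := by
  induction g using MvPolynomial.induction_on' with
  | monomial u a =>
    have ha : a = 0 ∨ a = 1 := by revert a; decide
    rcases ha with rfl | rfl
    · simp
    · have h : (kappa d) ∘ₗ (LinearMap.mulLeft (ZMod 2) ((monomial u (1 : ZMod 2)) ^ 2))
          = (LinearMap.mulLeft (ZMod 2) (monomial u (1 : ZMod 2))) ∘ₗ kappa d := by
        apply lin_ext
        intro t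
        simp only [LinearMap.comp_apply, LinearMap.mulLeft_apply]
        rw [monomial_pow, monomial_mul, one_pow, mul_one, kappa_monomial, kappa_monomial]
        by_cases ht : ∀ i, Odd (t i)
        · rw [if_pos ht, if_pos, monomial_mul, mul_one]
          · refine congrArg (fun z => monomial z (1 : ZMod 2)) ?_
            ext i
            rw [Finsupp.mapRange_apply, Finsupp.add_apply, Finsupp.add_apply,
              Finsupp.mapRange_apply, Finsupp.smul_apply, smul_eq_mul]
            omega
          · intro i
            have := ht i
            simp only [Finsupp.coe_add, Finsupp.coe_smul, Pi.add_apply, Pi.smul_apply, smul_eq_mul]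
            rw [Nat.odd_iff] at this ⊢
            omega
        · rw [if_neg ht, if_neg, mul_zero]
          intro h
          apply ht
          intro i
          have := h i
          simp only [Finsupp.coe_add, Finsupp.coe_smul, Pi.add_apply, Pi.smul_apply,
            smul_eq_mul] at this
          rw [Nat.odd_iff] at this ⊢
          omega
      have := congrArg (fun F => F f) h
      simpa using this
  | add p q hp hq =>
    have h2 : (p + q) ^ 2 = p ^ 2 + q ^ 2 := add_pow_char p q 2
    rw [h2, add_mul, map_add, hp, hq, add_mul]

end Pool.Agent.Y460.Kam
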