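import Pool.Agent.Y460.Kam.Lem

/-!
# `PH_n` via the total square
-/

set_option autoImplicit false

namespace Pool.Agent.Y460.Kam

open MvPolynomial

variable {d : ℕ}

lemma Sq_X (i : Fin d) : Sq d (X i) = X i + X i ^ 2 := by
  rw [Sq, aeval_X]

lemma monomial_eq_prod (t : Fin d →₀ ℕ) :
    (monomial t (1 : ZMod 2) : Pol d) = ∏ i, X i ^ t i := by
  rw [monomial_eq, C_1, one_mul, Finsupp.prod_fintype]
  intro i
  exact pow_zero _

lemma Sq_monomial (t : Fin d →₀ ℕ) :
    Sq d (monomial t 1) = monomial t 1 * ∏ i, (1 + X i) ^ t i := by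
  rw [monomial_eq_prod, map_prod, ← Finset.prod_mul_distrib]
  apply Finset.prod_congr rfl
  intro i _
  rw [map_pow, Sq_X, ← mul_pow]
  congr 1
  ring

lemma H_apply {n : ℕ} {φ : Module.Dual (ZMod 2) (Pol d)} (hφ : φ ∈ H d n) (f : Pol d) :
    φ f = φ (homogeneousComponent n f) := by
  have h := sum_homogeneousComponent f
  conv_lhs => rw [← h]
  rw [map_sum]
  have h0 : ∀ i ∈ Finset.range (f.totalDegree + 1), i ≠ n →
      φ (homogeneousComponent i f) = 0 := by
    intro i _ hi
    exact hφ i hi _ (homogeneousComponent_mem i f)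
  by_cases hn : n ∈ Finset.range (f.totalDegree + 1)
  · rw [Finset.sum_eq_single_of_mem n hn h0]
  · rw [Finset.sum_eq_zero (fun i hi => h0 i hi (fun e => hn (e ▸ hi)))]
    rw [homogeneousComponent_eq_zero n f (by simpa using hn), map_zero]

lemma coeff_zero_prod (t : Fin d →₀ ℕ) :
    coeff 0 (∏ i, (1 + X i : Pol d) ^ t i) = 1 := by
  change constantCoeff _ = 1
  rw [map_prod]
  apply Finset.prod_eq_one
  intro i _
  simp

lemma PH_Sq {n : ℕ} {φ : Module.Dual (ZMod 2) (Pol d)} (hφ : φ ∈ PH d n) (f : Pol d) :
    φ (Sq d f) = φ f := by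
  have h : φ ∘ₗ (Sq d).toLinearMap = φ := by
    apply lin_ext
    intro t
    rw [LinearMap.comp_apply, AlgHom.toLinearMap_apply]
    have hm : (monomial t (1 : ZMod 2) : Pol d) ∈ homogeneousSubmodule (Fin d) (ZMod 2) t.degree :=
      isHomogeneous_monomial 1 rfl
    rcases lt_trichotomy n t.degree with hlt | heq | hgt
    · rw [hφ.1 t.degree (Ne.symm (ne_of_lt hlt)) _ hm, H_apply hφ.1]
      have : homogeneousComponent n (Sq d (monomial t 1)) = 0 := by
        ext s
        rw [coeff_homogeneousComponent, coeff_zero]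
        split_ifs with hs
        · rw [Sq_monomial, coeff_monomial_mul', if_neg]
          intro hle
          have := Finsupp.degree_mono hle
          omega
        · rfl
      rw [this, map_zero]
    · subst heq
      rw [H_apply hφ.1]
      congr 1
      ext s
      rw [coeff_homogeneousComponent]
      split_ifs with hs
      · rw [Sq_monomial, coeff_monomial_mul', coeff_monomial]
        split_ifs with hle heq heq
        · subst heq
          rw [tsub_self, coeff_zero_prod, mul_one]
        · exfalso
          apply heq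
          have h1 : s = t + (s - t) := (add_tsub_cancel_of_le hle).symm
          have h2 : s.degree = t.degree + (s - t).degree := by
            conv_lhs => rw [h1]
            rw [map_add]
          have h3 : (s - t).degree = 0 := by omega
          rw [Finsupp.degree_eq_zero_iff] at h3
          rw [h1, h3, add_zero]
        · exact absurd (heq ▸ le_refl _) hle
        · rfl
      · rw [coeff_monomial, if_neg]
        rintro rfl
        exact hs rfl
    · rw [hφ.1 t.degree (ne_of_lt hgt) _ hm, H_apply hφ.1]
      obtain ⟨k, rfl⟩ := Nat.exists_eq_add_of_lt hgt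
      exact hφ.2 (k + 1) (Nat.succ_pos k) t.degree _ hm
  exact congrArg (fun F => F f) h

lemma mem_PH_of {n : ℕ} {φ : Module.Dual (ZMod 2) (Pol d)} (h1 : φ ∈ H d n)
    (h2 : ∀ f, φ (Sq d f) = φ f) : φ ∈ PH d n := by
  refine ⟨h1, fun k hk m f hf => ?_⟩
  by_cases hm : m + k = n
  · subst hm
    rw [← H_apply h1, h2]
    exact h1 m (by omega) f hf
  · exact h1 (m + k) hm _ (homogeneousComponent_mem _ _)

end Pool.Agent.Y460.Kam
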