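import Pool.Agent.Y460.Kam.Lem2

/-!
# The substitution action and Kameko's map on `PH`
-/

set_option autoImplicit false

namespace Pool.Agent.Y460.Kam

open MvPolynomial

variable {d : ℕ}

lemma act_X (w : GL (Fin d) (ZMod 2)) (j : Fin d) :
    act w (X j) = ∑ i, C ((w : Matrix (Fin d) (Fin d) (ZMod 2)) i j) * X i := by
  rw [act, aeval_X]

lemma act_mem (w : GL (Fin d) (ZMod 2)) {m : ℕ} {f : Pol d}
    (hf : f ∈ homogeneousSubmodule (Fin d) (ZMod 2) m) :
    act w f ∈ homogeneousSubmodule (Fin d) (ZMod 2) m := by
  have h := IsHomogeneous.aeval (σ := Fin d) (τ := Fin d) (R := ZMod 2) (m := m) (n := 1) hf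
    (fun j => ∑ i, C ((w : Matrix (Fin d) (Fin d) (ZMod 2)) i j) * X i) (by
      intro j
      apply IsHomogeneous.sum
      intro i _
      have := (isHomogeneous_C (Fin d) ((w : Matrix (Fin d) (Fin d) (ZMod 2)) i j)).mul
        (isHomogeneous_X (ZMod 2) i)
      rwa [zero_add] at this)
  rw [one_mul] at h
  exact h

lemma c_sq (a : ZMod 2) : (C a : Pol d) ^ 2 = C a := by
  have : a ^ 2 = a := by revert a; decide
  rw [← C_pow, this]

lemma act_Sq (w : GL (Fin d) (ZMod 2)) (f : Pol d) : act w (Sq d f) = Sq d (act w f) := by
  have h : (act w).comp (Sq d) = (Sq d).comp (act w) := by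
    apply MvPolynomial.algHom_ext
    intro j
    rw [AlgHom.comp_apply, AlgHom.comp_apply, Sq_X, map_add, map_pow, act_X, map_sum]
    have : (∑ i, C ((w : Matrix (Fin d) (Fin d) (ZMod 2)) i j) * X i : Pol d) ^ 2
        = ∑ i, C ((w : Matrix (Fin d) (Fin d) (ZMod 2)) i j) * X i ^ 2 := by
      rw [sum_pow_char]
      apply Finset.sum_congr rfl
      intro i _
      rw [mul_pow, c_sq]
    rw [this, ← Finset.sum_add_distrib]
    apply Finset.sum_congr rfl
    intro i _
    rw [map_mul, Sq_X, Sq, aeval_C, algebraMap_eq]
    ring
  exact congrArg (fun F => F f) h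

/-- The right action of `w` on functionals. -/
noncomputable def dact (w : GL (Fin d) (ZMod 2)) (φ : Module.Dual (ZMod 2) (Pol d)) :
    Module.Dual (ZMod 2) (Pol d) := φ ∘ₗ (act w).toLinearMap

lemma dact_apply (w : GL (Fin d) (ZMod 2)) (φ : Module.Dual (ZMod 2) (Pol d)) (f : Pol d) :
    dact w φ f = φ (act w f) := rfl

lemma dact_mem {n : ℕ} (w : GL (Fin d) (ZMod 2)) {φ : Module.Dual (ZMod 2) (Pol d)}
    (hφ : φ ∈ PH d n) : dact w φ ∈ PH d n := by
  apply mem_PH_of
  · intro m hm f hf
    rw [dact_apply]
    exact hφ.1 m hm _ (act_mem w hf)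
  · intro f
    rw [dact_apply, dact_apply, act_Sq, PH_Sq hφ]

/-! ### Kameko's map commutes with the total square and the action -/

/-- parity vector and half of an exponent -/
lemma split_exp (t : Fin d →₀ ℕ) :
    (monomial t (1 : ZMod 2) : Pol d)
      = (monomial (t.mapRange (fun a => a / 2) rfl) 1) ^ 2
        * monomial (t.mapRange (fun a => a % 2) rfl) 1 := by
  rw [monomial_pow, monomial_mul, one_pow, one_mul]
  refine congrArg (fun z => monomial z (1 : ZMod 2)) ?_
  ext i
  rw [Finsupp.add_apply, Finsupp.smul_apply, Finsupp.mapRange_apply, Finsupp.mapRange_apply,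
    smul_eq_mul]
  omega

lemma kappa_split (t : Fin d →₀ ℕ) :
    kappa d (monomial t 1) = monomial (t.mapRange (fun a => a / 2) rfl) 1
      * kappa d (monomial (t.mapRange (fun a => a % 2) rfl) 1) := by
  conv_lhs => rw [split_exp t]
  rw [kappa_sq_mul]

/-- A property of ring endomorphisms commuting with `κ`. -/
lemma kappa_comm (A : Pol d →ₐ[ZMod 2] Pol d)
    (h : ∀ t : Fin d →₀ ℕ, (∀ i, t i < 2) →
      kappa d (A (monomial t 1)) = if ∀ i, t i = 1 then 1 else 0) (f : Pol d) :
    kappa d (A f) = A (kappa d f) := by
  have h2 : kappa d ∘ₗ A.toLinearMap = A.toLinearMap ∘ₗ kappa d := by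
    apply lin_ext
    intro t
    rw [LinearMap.comp_apply, LinearMap.comp_apply, AlgHom.toLinearMap_apply,
      AlgHom.toLinearMap_apply]
    conv_lhs => rw [split_exp t]
    rw [map_mul, map_pow, kappa_sq_mul, h, kappa_monomial]
    · by_cases ho : ∀ i, Odd (t i)
      · rw [if_pos ho, if_pos, mul_one]
        intro i
        rw [Finsupp.mapRange_apply]
        exact Nat.odd_iff.mp (ho i)
      · rw [if_neg ho, if_neg, map_zero, mul_zero]
        intro h3
        apply ho
        intro i
        have := h3 i
        rw [Finsupp.mapRange_apply] at this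
        exact Nat.odd_iff.mpr this
    · intro i
      rw [Finsupp.mapRange_apply]
      exact Nat.mod_lt _ (by norm_num)
  exact congrArg (fun F => F f) h2

/-- `κ` kills polynomials in which no monomial has only odd exponents -/
lemma kappa_eq_of_coeff {g : Pol d} {c : ZMod 2}
    (h1 : coeff (Finsupp.equivFunOnFinite.symm (fun _ => 1)) g = c)
    (h2 : ∀ s : Fin d →₀ ℕ, (∀ i, Odd (s i)) → (∃ i, s i ≠ 1) → coeff s g = 0) :
    kappa d g = C c := by
  ext s
  rw [coeff_kappa, coeff_C]
  by_cases hs : 0 = s
  · subst hs
    rw [if_pos rfl, smul_zero, zero_add, h1]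
  · rw [if_neg hs]
    apply h2
    · intro i
      simp
    · by_contra hcon
      push Not at hcon
      apply hs
      ext i
      have := hcon i
      simp at this
      simp [this]

lemma kappa_Sq (f : Pol d) : kappa d (Sq d f) = Sq d (kappa d f) := by
  apply kappa_comm
  intro t ht
  have key : (if ∀ i, t i = 1 then (1 : Pol d) else 0) = C (if ∀ i, t i = 1 then 1 else 0) := by
    split_ifs <;> simp
  rw [key]
  -- the coefficient of `x^s` in `Sq x^t`
  have hc : ∀ s : Fin d →₀ ℕ, (∀ i, Odd (s i)) →
      coeff s (Sq d (monomial t 1)) = if (∀ i, t i = 1) ∧ ∀ i, s i = 1 then 1 else 0 := by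
    intro s hs
    rw [Sq_monomial, coeff_monomial_mul', one_mul]
    have hpos : ∀ i, 1 ≤ s i := fun i => (hs i).pos
    have hexp : (∏ i, (1 + X i : Pol d) ^ t i)
        = ∑ A ∈ (Finset.univ.filter fun i => t i = 1).powerset, ∏ i ∈ A, X i := by
      have e1 : (∏ i, (1 + X i : Pol d) ^ t i)
          = ∏ i ∈ Finset.univ.filter (fun i => t i = 1), (X i + 1) := by
        rw [Finset.prod_filter]
        apply Finset.prod_congr rfl
        intro i _
        have := ht i
        split_ifs with h
        · rw [h, pow_one, add_comm]
        · have : t i = 0 := by omega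
          rw [this, pow_zero]
      rw [e1, Finset.prod_add_one]
    have hmon : ∀ A : Finset (Fin d), (∏ i ∈ A, (X i : Pol d))
        = monomial (Finsupp.equivFunOnFinite.symm (fun i => if i ∈ A then 1 else 0)) 1 := by
      intro A
      rw [monomial_eq_prod, ← Finset.prod_filter_mul_prod_filter_not Finset.univ (· ∈ A)]
      rw [Finset.filter_mem_eq_inter, Finset.univ_inter]
      have e2 : ∏ x ∈ Finset.univ.filter (fun x => x ∉ A), (X x : Pol d) ^
          (Finsupp.equivFunOnFinite.symm (fun i => if i ∈ A then 1 else 0)) x = 1 := by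
        apply Finset.prod_eq_one
        intro x hx
        rw [Finset.mem_filter] at hx
        simp [hx.2]
      rw [e2, mul_one]
      apply Finset.prod_congr rfl
      intro x hx
      simp [hx]
    rw [hexp, coeff_sum]
    simp_rw [hmon, coeff_monomial]
    by_cases hle : t ≤ s
    · rw [if_pos hle]
      by_cases hall : ∀ i, t i = 1
      · by_cases hs1 : ∀ i, s i = 1
        · rw [if_pos ⟨hall, hs1⟩]
          rw [Finset.sum_eq_single ∅]
          · rw [if_pos]
            ext i
            rw [Finsupp.tsub_apply, hall i, hs1 i]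
            simp
          · intro A _ hA
            rw [if_neg]
            intro h
            apply hA
            ext i
            have := DFunLike.congr_fun h i
            rw [Finsupp.tsub_apply, hall i, hs1 i] at this
            simp at this
            simp [this]
          · intro h
            exact absurd (Finset.empty_mem_powerset _) h
        · rw [if_neg (fun h => hs1 h.2)]
          apply Finset.sum_eq_zero
          intro A _
          rw [if_neg]
          intro h
          apply hs1
          intro i
          have := DFunLike.congr_fun h i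
          rw [Finsupp.tsub_apply, hall i] at this
          have h1 := hs i
          simp only [Finsupp.equivFunOnFinite_symm_apply_apply] at this
          rw [Nat.odd_iff] at h1
          split_ifs at this <;> omega
      · rw [if_neg (fun h => hall h.1)]
        apply Finset.sum_eq_zero
        intro A hA
        rw [if_neg]
        intro h
        push Not at hall
        obtain ⟨i, hi⟩ := hall
        have := DFunLike.congr_fun h i
        rw [Finset.mem_powerset] at hA
        have hiA : i ∉ A := fun hm => hi (Finset.mem_filter.mp (hA hm)).2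
        rw [Finsupp.tsub_apply] at this
        simp only [Finsupp.equivFunOnFinite_symm_apply_apply, hiA, if_false] at this
        have := hpos i
        have := ht i
        omega
    · rw [if_neg hle, if_neg]
      rintro ⟨h1, h2⟩
      apply hle
      intro i
      rw [h1 i, h2 i]
  apply kappa_eq_of_coeff
  · rw [hc]
    · simp
    · intro i
      simp
  · intro s hs hs'
    rw [hc s hs, if_neg]
    rintro ⟨_, h⟩
    obtain ⟨i, hi⟩ := hs'
    exact hi (h i)

end Pool.Agent.Y460.Kam
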