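import Pool.Agent.Y460.Kam.Lem3

/-!
# Kameko's map commutes with the action of `GL_d`
-/

set_option autoImplicit false

namespace Pool.Agent.Y460.Kam

open MvPolynomial

variable {d : ℕ}

lemma det_gl (w : GL (Fin d) (ZMod 2)) : (w : Matrix (Fin d) (Fin d) (ZMod 2)).det = 1 := by
  have h : IsUnit (w : Matrix (Fin d) (Fin d) (ZMod 2)).det :=
    (Matrix.isUnit_iff_isUnit_det _).mp w.isUnit
  have h2 : ∀ a : ZMod 2, IsUnit a → a = 1 := by
    intro a ha
    have : a ≠ 0 := ha.ne_zero
    revert this
    revert a
    decide
  exact h2 _ h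

lemma coeff_prod_lin (M : Matrix (Fin d) (Fin d) (ZMod 2)) :
    coeff (Finsupp.equivFunOnFinite.symm (fun _ => 1))
      (∏ j, ∑ i, C (M i j) * X i : Pol d) = M.det := by
  rw [Finset.prod_univ_sum, coeff_sum, Matrix.det_apply]
  have hterm : ∀ p : Fin d → Fin d,
      coeff (Finsupp.equivFunOnFinite.symm (fun _ => 1)) (∏ j, (C (M (p j) j) * X (p j)) : Pol d)
        = if Function.Bijective p then ∏ j, M (p j) j else 0 := by
    intro p
    rw [Finset.prod_mul_distrib, ← map_prod, coeff_C_mul]
    have hx : (∏ j, (X (p j) : Pol d)) = monomial (∑ j, Finsupp.single (p j) 1) 1 := by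
      rw [monomial_sum_one]
      rfl
    rw [hx, coeff_monomial]
    by_cases hp : Function.Bijective p
    · rw [if_pos hp, if_pos, mul_one]
      ext i
      rw [Finsupp.finsetSum_apply]
      simp only [Finsupp.equivFunOnFinite_symm_apply_apply, Finsupp.single_apply]
      obtain ⟨j, hj⟩ := hp.2 i
      rw [Finset.sum_eq_single j]
      · rw [if_pos hj]
      · intro b _ hb
        rw [if_neg]
        intro h
        exact hb (hp.1 (h.trans hj.symm))
      · intro h
        exact absurd (Finset.mem_univ j) h
    · rw [if_neg hp, if_neg, mul_zero]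
      intro h
      apply hp
      rw [Function.Bijective, and_comm]
      have hs : Function.Surjective p := by
        intro i
        have := DFunLike.congr_fun h i
        rw [Finsupp.finsetSum_apply] at this
        simp only [Finsupp.equivFunOnFinite_symm_apply_apply, Finsupp.single_apply] at this
        by_contra hcon
        push Not at hcon
        rw [Finset.sum_eq_zero] at this
        · exact absurd this (by norm_num)
        · intro j _
          rw [if_neg (hcon j)]
      exact ⟨hs, Finite.injective_iff_surjective.mpr hs⟩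
  simp_rw [hterm]
  rw [← Finset.sum_filter]
  symm
  apply Finset.sum_bij (fun (σ : Equiv.Perm (Fin d)) _ => (σ : Fin d → Fin d))
  · intro σ _
    rw [Finset.mem_filter, Fintype.mem_piFinset]
    exact ⟨fun _ => Finset.mem_univ _, σ.bijective⟩
  · intro σ _ τ _ h
    exact DFunLike.coe_injective h
  · intro p hp
    rw [Finset.mem_filter] at hp
    exact ⟨Equiv.ofBijective p hp.2, Finset.mem_univ _, rfl⟩
  · intro σ _
    rcases Int.units_eq_one_or (Equiv.Perm.sign σ) with h | h
    · rw [h, one_smul]
    · rw [h, Units.neg_smul, one_smul]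
      exact ZMod.neg_eq_self_mod_two _

lemma act_monomial (w : GL (Fin d) (ZMod 2)) (t : Fin d →₀ ℕ) :
    act w (monomial t 1)
      = ∏ j, (∑ i, C ((w : Matrix (Fin d) (Fin d) (ZMod 2)) i j) * X i) ^ t j := by
  rw [monomial_eq_prod, map_prod]
  apply Finset.prod_congr rfl
  intro j _
  rw [map_pow, act_X]

lemma degree_eq_sum (s : Fin d →₀ ℕ) : s.degree = ∑ i, s i := by
  rw [Finsupp.degree_eq_sum]

lemma kappa_act (w : GL (Fin d) (ZMod 2)) (f : Pol d) :
    kappa d (act w f) = act w (kappa d f) := by
  apply kappa_comm
  intro t ht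
  have hhom : act w (monomial t 1) ∈ homogeneousSubmodule (Fin d) (ZMod 2) t.degree :=
    act_mem w (isHomogeneous_monomial 1 rfl)
  have hdeg : t.degree ≤ d := by
    rw [degree_eq_sum]
    calc ∑ i, t i ≤ ∑ _i : Fin d, 1 := Finset.sum_le_sum fun i _ => by have := ht i; omega
      _ = d := by simp
  have hsd : ∀ s : Fin d →₀ ℕ, (∀ i, Odd (s i)) → d ≤ s.degree := by
    intro s hs
    rw [degree_eq_sum]
    calc d = ∑ _i : Fin d, 1 := by simp
      _ ≤ ∑ i, s i := Finset.sum_le_sum fun i _ => (hs i).pos
  have hzero : ∀ s : Fin d →₀ ℕ, s.degree ≠ t.degree → coeff s (act w (monomial t 1)) = 0 := by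
    intro s hs
    exact ((mem_homogeneousSubmodule _ _).mp hhom).coeff_eq_zero hs
  by_cases hall : ∀ i, t i = 1
  · rw [if_pos hall]
    have h1 : (1 : Pol d) = C 1 := by simp
    rw [h1]
    have htd : t.degree = d := by
      rw [degree_eq_sum]
      simp [hall]
    apply kappa_eq_of_coeff
    · rw [act_monomial]
      simp_rw [hall, pow_one]
      rw [coeff_prod_lin, det_gl]
    · intro s hs hs'
      apply hzero
      rw [htd, degree_eq_sum]
      apply ne_of_gt
      obtain ⟨i, hi⟩ := hs'
      calc d = ∑ _i : Fin d, 1 := by simp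
        _ < ∑ i, s i := by
          apply Finset.sum_lt_sum
          · intro j _
            exact (hs j).pos
          · refine ⟨i, Finset.mem_univ i, ?_⟩
            have := (hs i).pos
            omega
  · rw [if_neg hall]
    have h1 : (0 : Pol d) = C 0 := by simp
    rw [h1]
    have htd : t.degree < d := by
      push Not at hall
      obtain ⟨i, hi⟩ := hall
      rw [degree_eq_sum]
      calc ∑ i, t i < ∑ _i : Fin d, 1 := by
            apply Finset.sum_lt_sum
            · intro j _
              have := ht j
              omega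
            · refine ⟨i, Finset.mem_univ i, ?_⟩
              have := ht i
              omega
        _ = d := by simp
    apply kappa_eq_of_coeff
    · apply hzero
      have := hsd (Finsupp.equivFunOnFinite.symm (fun _ => 1)) (by intro i; simp)
      omega
    · intro s hs _
      apply hzero
      have := hsd s hs
      omega

end Pool.Agent.Y460.Kam
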