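import Pool.Agent.Y460.Kam.Inv2

/-!
# Kameko's squaring operation is not injective on coinvariants
-/

set_option autoImplicit false

namespace Pool.Agent.Y460.Kam

open MvPolynomial

variable {d : ℕ}

/-! ### Invariance under `GL_d` -/

lemma inv_actM {j : ℕ} (hj : d ≤ j) (M : Matrix (Fin d) (Fin d) (ZMod 2)) (hM : M.det ≠ 0) :
    ∀ ψ ∈ PH d (2 ^ j - 1), ψ (actM M (inv d j)) = ψ (inv d j) := by
  apply Matrix.diagonal_transvection_induction_of_det_ne_zero
    (fun M => ∀ ψ ∈ PH d (2 ^ j - 1), ψ (actM M (inv d j)) = ψ (inv d j)) M hM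
  · intro D hD ψ _
    have h1 : Matrix.diagonal D = 1 := by
      rw [← Matrix.diagonal_one]
      congr 1
      funext i
      rw [Matrix.det_diagonal, Finset.prod_ne_zero_iff] at hD
      have := hD i (Finset.mem_univ i)
      have h2 : ∀ a : ZMod 2, a ≠ 0 → a = 1 := by decide
      exact h2 _ this
    rw [h1, actM_one]
  · intro t ψ hψ
    have h2 : ∀ a : ZMod 2, a = 0 ∨ a = 1 := by decide
    rcases h2 t.c with hc | hc
    · have h1 : t.toMatrix = 1 := by
        rw [Matrix.TransvectionStruct.toMatrix, hc, Matrix.transvection_zero]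
      rw [h1, actM_one]
    · have h1 : t.toMatrix = Matrix.transvection t.i t.j 1 := by
        rw [Matrix.TransvectionStruct.toMatrix, hc]
      rw [h1]
      exact T_inv (Ne.symm t.hij) hj hψ
  · intro A B _ _ hA hB ψ hψ
    rw [actM_mul]
    have := hB (ψ ∘ₗ (actM A).toLinearMap) (actM_dual_mem A hψ)
    rw [LinearMap.comp_apply, LinearMap.comp_apply, AlgHom.toLinearMap_apply,
      AlgHom.toLinearMap_apply] at this
    rw [this, hA ψ hψ]

/-! ### Coefficient functionals -/

/-- the coefficient of `x^t` -/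
noncomputable def cf (t : Fin d →₀ ℕ) : Module.Dual (ZMod 2) (Pol d) := lcoeff (ZMod 2) t

lemma cf_apply (t : Fin d →₀ ℕ) (f : Pol d) : cf t f = coeff t f := rfl

lemma cf_monomial (t s : Fin d →₀ ℕ) : cf t (monomial s 1) = if s = t then 1 else 0 := by
  rw [cf_apply, coeff_monomial]

lemma even_choose (a : ℕ) : ∀ s u : ℕ, s + u + 1 = 2 ^ a → 0 < u → Even (s.choose u) := by
  induction a with
  | zero =>
    intro s u h hu
    rw [pow_zero] at h
    omega
  | succ a ih =>
    intro s u h hu
    rw [pow_succ] at h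
    have hmod := Choose.choose_modEq_choose_mod_mul_choose_div_nat (n := s) (k := u) (p := 2)
    rw [Nat.even_iff]
    rw [Nat.ModEq] at hmod
    rw [hmod]
    rcases Nat.mod_two_eq_zero_or_one u with hu2 | hu2
    · have h1 : Even ((s / 2).choose (u / 2)) := by
        apply ih
        · omega
        · omega
      rw [← Nat.even_iff]
      exact h1.mul_left _
    · have hs2 : s % 2 = 0 := by omega
      rw [hs2, hu2]
      simp

lemma coeff_prod_pow (s u : Fin d →₀ ℕ) :
    coeff u (∏ i, (1 + X i : Pol d) ^ s i) = ∏ i, (((s i).choose (u i) : ℕ) : ZMod 2) := by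
  have h1 : ∀ i : Fin d, (1 + X i : Pol d) ^ s i
      = ∑ m ∈ Finset.range (s i + 1), C (((s i).choose m : ℕ) : ZMod 2) * X i ^ m := by
    intro i
    rw [add_comm, add_pow]
    apply Finset.sum_congr rfl
    intro m _
    rw [one_pow, mul_one, map_natCast, mul_comm]
  simp_rw [h1]
  rw [Finset.prod_univ_sum, coeff_sum]
  have h2 : ∀ p : Fin d → ℕ,
      coeff u (∏ i, (C (((s i).choose (p i) : ℕ) : ZMod 2) * X i ^ p i) : Pol d)
        = if p = u then ∏ i, (((s i).choose (p i) : ℕ) : ZMod 2) else 0 := by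
    intro p
    have h3 : (∏ i, (X i : Pol d) ^ p i) = monomial (Finsupp.equivFunOnFinite.symm p) 1 := by
      rw [monomial_eq_prod]
      rfl
    rw [Finset.prod_mul_distrib, ← map_prod, coeff_C_mul, h3, coeff_monomial]
    by_cases hp : p = u
    · rw [if_pos hp, if_pos, mul_one]
      ext i
      rw [hp]
      rfl
    · rw [if_neg hp, if_neg, mul_zero]
      intro h
      apply hp
      rw [← h]
      rfl
  simp_rw [h2]
  by_cases hu : ∀ i, u i ≤ s i
  · rw [Finset.sum_eq_single (u : Fin d → ℕ)]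
    · rw [if_pos rfl]
    · intro p _ hp
      rw [if_neg hp]
    · intro h
      exfalso
      apply h
      rw [Fintype.mem_piFinset]
      intro i
      rw [Finset.mem_range]
      have := hu i
      omega
  · push Not at hu
    obtain ⟨i, hi⟩ := hu
    rw [Finset.prod_eq_zero (Finset.mem_univ i) (by rw [Nat.choose_eq_zero_of_lt hi]; rfl)]
    apply Finset.sum_eq_zero
    intro p hp
    rw [if_neg]
    rintro rfl
    rw [Fintype.mem_piFinset] at hp
    have := hp i
    rw [Finset.mem_range] at this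
    omega

/-- exponents all of the form `2^a - 1` -/
def Spike (t : Fin d →₀ ℕ) : Prop := ∀ i, ∃ a : ℕ, t i + 1 = 2 ^ a

lemma cf_mem {t : Fin d →₀ ℕ} (ht : Spike t) : cf t ∈ PH d t.degree := by
  apply mem_PH_of
  · intro m hm f hf
    exact ((mem_homogeneousSubmodule _ _).mp hf).coeff_eq_zero (Ne.symm hm)
  · intro f
    have h : cf t ∘ₗ (Sq d).toLinearMap = cf t := by
      apply lin_ext
      intro s
      rw [LinearMap.comp_apply, AlgHom.toLinearMap_apply, cf_monomial, cf_apply, Sq_monomial,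
        coeff_monomial_mul', one_mul, coeff_prod_pow]
      by_cases hs : s = t
      · subst hs
        rw [if_pos le_rfl, if_pos rfl, tsub_self]
        simp
      · rw [if_neg hs]
        split_ifs with hle
        · obtain ⟨i, hi⟩ : ∃ i, s i ≠ t i := by
            by_contra hcon
            push Not at hcon
            exact hs (Finsupp.ext hcon)
          apply Finset.prod_eq_zero (Finset.mem_univ i)
          obtain ⟨a, ha⟩ := ht i
          have hle' := hle i
          rw [Finsupp.tsub_apply]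
          have := even_choose a (s i) (t i - s i) (by omega) (by omega)
          rw [ZMod.natCast_eq_zero_iff]
          exact this.two_dvd
        · rfl
    exact congrArg (fun F => F f) h

lemma cf_mem' {t : Fin d →₀ ℕ} {n : ℕ} (ht : Spike t) (hn : t.degree = n) : cf t ∈ PH d n := by
  rw [← hn]
  exact cf_mem ht

/-! ### The relations -/

/-- the image of `rel d n` in the dual space -/
noncomputable def Rl (d n : ℕ) : Submodule (ZMod 2) (Module.Dual (ZMod 2) (Pol d)) :=
  (rel d n).map (PH d n).subtype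

lemma mem_rel_iff {n : ℕ} (x : PH d n) : x ∈ rel d n ↔ x.1 ∈ Rl d n := by
  constructor
  · intro h
    exact ⟨x, h, rfl⟩
  · rintro ⟨y, hy, hxy⟩
    have : y = x := Subtype.ext hxy
    rwa [← this]

lemma Rl_gen {n : ℕ} (w : GL (Fin d) (ZMod 2)) {φ : Module.Dual (ZMod 2) (Pol d)}
    (hφ : φ ∈ PH d n) : φ ∘ₗ (act w).toLinearMap - φ ∈ Rl d n := by
  refine ⟨⟨φ ∘ₗ (act w).toLinearMap - φ, (PH d n).sub_mem (dact_mem w hφ) hφ⟩, ?_, rfl⟩
  apply Submodule.subset_span
  exact ⟨w, ⟨φ, hφ⟩, rfl⟩

lemma act_mul (w w' : GL (Fin d) (ZMod 2)) (f : Pol d) : act (w * w') f = act w (act w' f) := by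
  rw [act_eq, act_eq, act_eq]
  exact actM_mul _ _ f

lemma Rl_act {n : ℕ} (w : GL (Fin d) (ZMod 2)) {χ : Module.Dual (ZMod 2) (Pol d)}
    (hχ : χ ∈ Rl d n) : χ ∘ₗ (act w).toLinearMap ∈ Rl d n := by
  obtain ⟨x, hx, rfl⟩ := hχ
  induction hx using Submodule.span_induction with
  | mem x h =>
    obtain ⟨w', φ, h⟩ := h
    change x.1 ∘ₗ _ ∈ _
    rw [h]
    have e : (φ.1 ∘ₗ (act w').toLinearMap - φ.1) ∘ₗ (act w).toLinearMap
        = (φ.1 ∘ₗ (act (w' * w)).toLinearMap - φ.1) - (φ.1 ∘ₗ (act w).toLinearMap - φ.1) := by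
      apply LinearMap.ext
      intro f
      simp only [LinearMap.comp_apply, LinearMap.sub_apply, AlgHom.toLinearMap_apply, act_mul]
      ring
    rw [e]
    exact (Rl d n).sub_mem (Rl_gen _ φ.2) (Rl_gen _ φ.2)
  | zero =>
    rw [map_zero, LinearMap.zero_comp]
    exact (Rl d n).zero_mem
  | add x y _ _ hx hy =>
    rw [map_add, LinearMap.add_comp]
    exact (Rl d n).add_mem hx hy
  | smul c x _ hx =>
    rw [map_smul, LinearMap.smul_comp]
    exact (Rl d n).smul_mem c hx

/-- the transvection `x_p ↦ x_p + x_q` as an element of `GL_d` -/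
noncomputable def tau {p q : Fin d} (hpq : p ≠ q) : GL (Fin d) (ZMod 2) :=
  Matrix.GeneralLinearGroup.mkOfDetNeZero (Matrix.transvection q p 1) (by
    rw [Matrix.det_transvection_of_ne q p (Ne.symm hpq)]
    exact one_ne_zero)

lemma act_tau {p q : Fin d} (hpq : p ≠ q) : act (tau hpq) = T p q := rfl

/-- moving the exponent of `x_q` to `x_e` -/
noncomputable def mv (q e : Fin d) (s : Fin d →₀ ℕ) : Fin d →₀ ℕ :=
  Finsupp.equivFunOnFinite.symm
    (fun i => if i = q then 0 else if i = e then s e + s q else s i)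

lemma mv_apply (q e : Fin d) (s : Fin d →₀ ℕ) (i : Fin d) :
    mv q e s i = if i = q then 0 else if i = e then s e + s q else s i := rfl

lemma T_eval {q e : Fin d} (hqe : q ≠ e) {φ : Module.Dual (ZMod 2) (Pol d)}
    (hφ : ∀ g, φ (X q * g) = 0) (s : Fin d →₀ ℕ) :
    φ (T q e (monomial s 1)) = φ (monomial (mv q e s) 1) := by
  have h1 : ∀ n : ℕ, ∀ g : Pol d, φ ((X q + X e) ^ n * g) = φ (X e ^ n * g) := by
    intro n
    induction n with
    | zero => intro g; rfl
    | succ n ih =>
      intro g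
      have e1 : (X q + X e : Pol d) ^ (n + 1) * g
          = X q * ((X q + X e) ^ n * g) + (X q + X e) ^ n * (X e * g) := by ring
      rw [e1, map_add, hφ, zero_add, ih]
      congr 1
      ring
  have h2 : T q e (monomial s 1) = (X q + X e) ^ s q * ∏ i ∈ Finset.univ.erase q, X i ^ s i := by
    rw [monomial_eq_prod, map_prod, ← Finset.mul_prod_erase _ _ (Finset.mem_univ q), map_pow,
      T_self hqe]
    congr 1
    apply Finset.prod_congr rfl
    intro i hi
    rw [map_pow, T_other (Finset.ne_of_mem_erase hi)]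
  have h3 : (monomial (mv q e s) 1 : Pol d) = X e ^ s q * ∏ i ∈ Finset.univ.erase q, X i ^ s i := by
    rw [monomial_eq_prod, ← Finset.mul_prod_erase _ _ (Finset.mem_univ q), mv_apply, if_pos rfl,
      pow_zero, one_mul]
    have he : e ∈ Finset.univ.erase q := Finset.mem_erase.mpr ⟨Ne.symm hqe, Finset.mem_univ e⟩
    rw [← Finset.mul_prod_erase _ _ he, ← Finset.mul_prod_erase _ (fun i => (X i : Pol d) ^ s i) he,
      mv_apply, if_neg (Ne.symm hqe), if_pos rfl, pow_add]
    have e2 : ∏ x ∈ (Finset.univ.erase q).erase e, (X x : Pol d) ^ mv q e s x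
        = ∏ x ∈ (Finset.univ.erase q).erase e, (X x : Pol d) ^ s x := by
      apply Finset.prod_congr rfl
      intro x hx
      rw [Finset.mem_erase, Finset.mem_erase] at hx
      rw [mv_apply, if_neg hx.2.1, if_neg hx.1]
    rw [e2]
    ring
  rw [h2, h1, h3]

lemma cf_X {t : Fin d →₀ ℕ} {q : Fin d} (hq : t q = 0) (g : Pol d) : cf t (X q * g) = 0 := by
  rw [cf_apply, coeff_X_mul', if_neg]
  rw [Finsupp.mem_support_iff]
  exact fun h => h hq

/-- A coefficient functional at a spike with some exponent `1` and some exponent `0` vanishes in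
the coinvariants. -/
lemma cf_rel {t : Fin d →₀ ℕ} {n : ℕ} (ht : Spike t) (hn : t.degree = n) {p q : Fin d}
    (hp : t p = 1) (hq : t q = 0) : cf t ∈ Rl d n := by
  have hpq : p ≠ q := by
    rintro rfl
    omega
  -- the exponent with `p`, `q` exchanged
  set t' : Fin d →₀ ℕ := Finsupp.equivFunOnFinite.symm
    (fun i => if i = p then 0 else if i = q then 1 else t i) with ht'
  have t'_apply : ∀ i, t' i = if i = p then 0 else if i = q then 1 else t i := fun _ => rfl
  have hsp : Spike t' := by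
    intro i
    rw [t'_apply]
    split_ifs
    · exact ⟨0, rfl⟩
    · exact ⟨1, rfl⟩
    · exact ht i
  have hdeg : t'.degree = n := by
    rw [← hn, degree_eq_sum, degree_eq_sum]
    rw [← Finset.add_sum_erase _ _ (Finset.mem_univ p),
      ← Finset.add_sum_erase _ (fun i => t i) (Finset.mem_univ p)]
    have hqm : q ∈ Finset.univ.erase p := Finset.mem_erase.mpr ⟨Ne.symm hpq, Finset.mem_univ q⟩
    rw [← Finset.add_sum_erase _ _ hqm, ← Finset.add_sum_erase _ (fun i => t i) hqm]
    have e2 : ∑ x ∈ (Finset.univ.erase p).erase q, t' x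
        = ∑ x ∈ (Finset.univ.erase p).erase q, t x := by
      apply Finset.sum_congr rfl
      intro x hx
      rw [Finset.mem_erase, Finset.mem_erase] at hx
      rw [t'_apply, if_neg hx.2.1, if_neg hx.1]
    rw [e2, t'_apply, if_pos rfl, t'_apply, if_neg (Ne.symm hpq), if_pos rfl, hp, hq]
    ring
  have key : cf t = cf t' ∘ₗ (act (tau hpq)).toLinearMap - cf t' := by
    apply lin_ext
    intro s
    rw [LinearMap.sub_apply, LinearMap.comp_apply, AlgHom.toLinearMap_apply, act_tau,
      T_eval hpq (fun g => cf_X (by rw [t'_apply, if_pos rfl]) g), cf_monomial, cf_monomial,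
      cf_monomial]
    by_cases hr : ∀ i, i ≠ p → i ≠ q → s i = t i
    · have e1 : s = t ↔ s p = 1 ∧ s q = 0 := by
        constructor
        · rintro rfl
          exact ⟨hp, hq⟩
        · rintro ⟨h1, h2⟩
          ext i
          by_cases hi : i = p
          · rw [hi, h1, hp]
          · by_cases hi2 : i = q
            · rw [hi2, h2, hq]
            · exact hr i hi hi2
      have e2 : s = t' ↔ s p = 0 ∧ s q = 1 := by
        constructor
        · rintro h
          rw [h, t'_apply, t'_apply, if_pos rfl, if_neg (Ne.symm hpq), if_pos rfl]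
          exact ⟨rfl, rfl⟩
        · rintro ⟨h1, h2⟩
          ext i
          rw [t'_apply]
          split_ifs with hi hi2
          · rw [hi, h1]
          · rw [hi2, h2]
          · exact hr i hi hi2
      have e3 : mv p q s = t' ↔ s q + s p = 1 := by
        constructor
        · intro h
          have := DFunLike.congr_fun h q
          rw [mv_apply, t'_apply, if_neg (Ne.symm hpq), if_pos rfl, if_neg (Ne.symm hpq),
            if_pos rfl] at this
          exact this
        · intro h
          ext i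
          rw [mv_apply, t'_apply]
          split_ifs with hi hi2
          · rfl
          · exact h
          · exact hr i hi hi2
      simp only [e1, e2, e3]
      split_ifs <;> first | omega | decide
    · have e1 : s ≠ t := by
        rintro rfl
        exact hr fun _ _ _ => rfl
      have e2 : s ≠ t' := by
        intro h
        apply hr
        intro i h1 h2
        rw [h, t'_apply, if_neg h1, if_neg h2]
      have e3 : mv p q s ≠ t' := by
        intro h
        apply hr
        intro i h1 h2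
        have := DFunLike.congr_fun h i
        rwa [mv_apply, t'_apply, if_neg h1, if_neg h2, if_neg h1, if_neg h2] at this
      rw [if_neg e1, if_neg e2, if_neg e3]
      rfl
  rw [key]
  exact Rl_gen _ (cf_mem' hsp hdeg)

/-- replace the exponents at `q`, `r`, `e` -/
noncomputable def rp (q r e : Fin d) (a b c : ℕ) (t : Fin d →₀ ℕ) : Fin d →₀ ℕ :=
  Finsupp.equivFunOnFinite.symm
    (fun i => if i = q then a else if i = r then b else if i = e then c else t i)

lemma rp_apply (q r e : Fin d) (a b c : ℕ) (t : Fin d →₀ ℕ) (i : Fin d) :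
    rp q r e a b c t i = if i = q then a else if i = r then b else if i = e then c else t i := rfl

lemma key_arith (R R' : Prop) (h : R' ↔ R) (x y z : ℕ) [Decidable R] [Decidable R'] :
    (if R ∧ x = 1 ∧ y = 1 ∧ z = 1 then (1 : ZMod 2) else 0)
      = ((if R' ∧ (0 : ℕ) = 0 ∧ z + y + x = 3 then 1 else 0)
          - (if R' ∧ x = 0 ∧ (0 : ℕ) = 0 ∧ z + y = 3 then 1 else 0)
          - (if R' ∧ x = 3 ∧ (0 : ℕ) = 0 ∧ z + y = 0 then 1 else 0))
        - ((if R ∧ y = 0 ∧ z + x = 3 then 1 else 0)
          - (if R ∧ x = 0 ∧ y = 0 ∧ z = 3 then 1 else 0)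
          - (if R ∧ x = 3 ∧ y = 0 ∧ z = 0 then 1 else 0))
        - ((if R ∧ y + x = 3 ∧ z = 0 then 1 else 0)
          - (if R ∧ x = 0 ∧ y = 3 ∧ z = 0 then 1 else 0)
          - (if R ∧ x = 3 ∧ y = 0 ∧ z = 0 then 1 else 0)) := by
  by_cases hR : R
  · have hR' : R' := h.mpr hR
    simp only [hR, hR', true_and]
    split_ifs <;> first | omega | decide
  · have hR' : ¬ R' := fun h' => hR (h.mp h')
    simp only [hR, hR', false_and, if_false, sub_zero]

/-- A coefficient functional at a spike with four exponents equal to `1` vanishes in the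
coinvariants. -/
lemma cf_rel4 {t : Fin d →₀ ℕ} {n : ℕ} (ht : Spike t) (hn : t.degree = n) {p q r e : Fin d}
    (hpq : p ≠ q) (hpr : p ≠ r) (hpe : p ≠ e) (hqr : q ≠ r) (hqe : q ≠ e) (hre : r ≠ e)
    (hp : t p = 1) (hq : t q = 1) (hr : t r = 1) (he : t e = 1) : cf t ∈ Rl d n := by
  have hval : ∀ a b c : ℕ, rp q r e a b c t p = 1 ∧ rp q r e a b c t q = a ∧
      rp q r e a b c t r = b ∧ rp q r e a b c t e = c := by
    intro a b c
    refine ⟨?_, ?_, ?_, ?_⟩
    · rw [rp_apply, if_neg hpq, if_neg hpr, if_neg hpe, hp]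
    · rw [rp_apply, if_pos rfl]
    · rw [rp_apply, if_neg (Ne.symm hqr), if_pos rfl]
    · rw [rp_apply, if_neg (Ne.symm hqe), if_neg (Ne.symm hre), if_pos rfl]
  have hdeg : ∀ a b c : ℕ, a + b + c = 3 → (rp q r e a b c t).degree = n := by
    intro a b c habc
    rw [← hn, degree_eq_sum, degree_eq_sum]
    have hrm : r ∈ Finset.univ.erase q := Finset.mem_erase.mpr ⟨Ne.symm hqr, Finset.mem_univ r⟩
    have hem : e ∈ (Finset.univ.erase q).erase r :=
      Finset.mem_erase.mpr ⟨Ne.symm hre, Finset.mem_erase.mpr ⟨Ne.symm hqe, Finset.mem_univ e⟩⟩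
    rw [← Finset.add_sum_erase _ _ (Finset.mem_univ q),
      ← Finset.add_sum_erase _ (fun i => t i) (Finset.mem_univ q),
      ← Finset.add_sum_erase _ _ hrm, ← Finset.add_sum_erase _ (fun i => t i) hrm,
      ← Finset.add_sum_erase _ _ hem, ← Finset.add_sum_erase _ (fun i => t i) hem]
    have e2 : ∑ x ∈ ((Finset.univ.erase q).erase r).erase e, rp q r e a b c t x
        = ∑ x ∈ ((Finset.univ.erase q).erase r).erase e, t x := by
      apply Finset.sum_congr rfl
      intro x hx
      rw [Finset.mem_erase, Finset.mem_erase, Finset.mem_erase] at hx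
      rw [rp_apply, if_neg hx.2.2.1, if_neg hx.2.1, if_neg hx.1]
    rw [e2, (hval a b c).2.1, (hval a b c).2.2.1, (hval a b c).2.2.2, hq, hr, he]
    omega
  have hspk : ∀ a b c : ℕ, (a = 0 ∨ a = 3) → (b = 0 ∨ b = 3) → (c = 0 ∨ c = 3) →
      Spike (rp q r e a b c t) := by
    intro a b c ha hb hc i
    have h03 : ∀ x : ℕ, (x = 0 ∨ x = 3) → ∃ a : ℕ, x + 1 = 2 ^ a := by
      rintro x (rfl | rfl)
      · exact ⟨0, rfl⟩
      · exact ⟨2, rfl⟩
    rw [rp_apply]
    split_ifs
    · exact h03 a ha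
    · exact h03 b hb
    · exact h03 c hc
    · exact ht i
  have hA : cf (rp q r e 0 0 3 t) ∈ Rl d n :=
    cf_rel (hspk 0 0 3 (Or.inl rfl) (Or.inl rfl) (Or.inr rfl)) (hdeg 0 0 3 rfl)
      (hval 0 0 3).1 (hval 0 0 3).2.1
  have hB : cf (rp q r e 3 0 0 t) ∈ Rl d n :=
    cf_rel (hspk 3 0 0 (Or.inr rfl) (Or.inl rfl) (Or.inl rfl)) (hdeg 3 0 0 rfl)
      (hval 3 0 0).1 (hval 3 0 0).2.2.1
  have hC : cf (rp q r e 0 3 0 t) ∈ Rl d n :=
    cf_rel (hspk 0 3 0 (Or.inl rfl) (Or.inr rfl) (Or.inl rfl)) (hdeg 0 3 0 rfl)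
      (hval 0 3 0).1 (hval 0 3 0).2.1
  set P := cf (rp q r e 0 0 3 t) ∘ₗ (act (tau hqe)).toLinearMap - cf (rp q r e 0 0 3 t)
    - cf (rp q r e 3 0 0 t) with hP
  set P' := cf (rp q r e 0 3 0 t) ∘ₗ (act (tau hqr)).toLinearMap - cf (rp q r e 0 3 0 t)
    - cf (rp q r e 3 0 0 t) with hP'
  have hPm : P ∈ Rl d n := (Rl d n).sub_mem ((Rl d n).sub_mem (Rl_act _ hA) hA) hB
  have hPm' : P' ∈ Rl d n := (Rl d n).sub_mem ((Rl d n).sub_mem (Rl_act _ hC) hC) hB
  -- values on monomials
  have hrest : ∀ a b c : ℕ, ∀ s : Fin d →₀ ℕ, (s = rp q r e a b c t ↔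
      (∀ i, i ≠ q → i ≠ r → i ≠ e → s i = t i) ∧ s q = a ∧ s r = b ∧ s e = c) := by
    intro a b c s
    constructor
    · rintro rfl
      refine ⟨?_, (hval a b c).2⟩
      intro i h1 h2 h3
      rw [rp_apply, if_neg h1, if_neg h2, if_neg h3]
    · rintro ⟨h0, h1, h2, h3⟩
      ext i
      rw [rp_apply]
      split_ifs with i1 i2 i3
      · rw [i1, h1]
      · rw [i2, h2]
      · rw [i3, h3]
      · exact h0 i i1 i2 i3
  have hcf : ∀ a b c : ℕ, ∀ s : Fin d →₀ ℕ, cf (rp q r e a b c t) (monomial s 1)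
      = if (∀ i, i ≠ q → i ≠ r → i ≠ e → s i = t i) ∧ s q = a ∧ s r = b ∧ s e = c
        then 1 else 0 := by
    intro a b c s
    rw [cf_monomial]
    simp only [hrest a b c s]
  have hmvR : ∀ u v : Fin d, u ∈ ({q, r, e} : Finset (Fin d)) → v ∈ ({q, r, e} : Finset (Fin d)) →
      ∀ s : Fin d →₀ ℕ, (∀ i, i ≠ q → i ≠ r → i ≠ e → mv u v s i = t i) ↔
        (∀ i, i ≠ q → i ≠ r → i ≠ e → s i = t i) := by
    intro u v hu hv s
    have : ∀ i, i ≠ q → i ≠ r → i ≠ e → mv u v s i = s i := by
      intro i h1 h2 h3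
      rw [mv_apply, if_neg, if_neg]
      · rintro rfl
        simp only [Finset.mem_insert, Finset.mem_singleton] at hv
        tauto
      · rintro rfl
        simp only [Finset.mem_insert, Finset.mem_singleton] at hu
        tauto
    constructor
    · intro h i h1 h2 h3
      rw [← this i h1 h2 h3]
      exact h i h1 h2 h3
    · intro h i h1 h2 h3
      rw [this i h1 h2 h3]
      exact h i h1 h2 h3
  have hPv : ∀ s : Fin d →₀ ℕ, P (monomial s 1)
      = (if (∀ i, i ≠ q → i ≠ r → i ≠ e → s i = t i) ∧ s r = 0 ∧ s e + s q = 3 then 1 else 0)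
        - (if (∀ i, i ≠ q → i ≠ r → i ≠ e → s i = t i) ∧ s q = 0 ∧ s r = 0 ∧ s e = 3
            then 1 else 0)
        - (if (∀ i, i ≠ q → i ≠ r → i ≠ e → s i = t i) ∧ s q = 3 ∧ s r = 0 ∧ s e = 0
            then 1 else 0) := by
    intro s
    rw [hP, LinearMap.sub_apply, LinearMap.sub_apply, LinearMap.comp_apply,
      AlgHom.toLinearMap_apply, act_tau, T_eval hqe (fun g => cf_X (hval 0 0 3).2.1 g), hcf, hcf,
      hcf]
    congr 2
    have e1 : mv q e s q = 0 := by rw [mv_apply, if_pos rfl]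
    have e2 : mv q e s r = s r := by
      rw [mv_apply, if_neg (Ne.symm hqr), if_neg hre]
    have e3 : mv q e s e = s e + s q := by
      rw [mv_apply, if_neg (Ne.symm hqe), if_pos rfl]
    rw [e1, e2, e3]
    simp only [hmvR q e (by simp) (by simp) s, true_and]
  have hPv' : ∀ s : Fin d →₀ ℕ, P' (monomial s 1)
      = (if (∀ i, i ≠ q → i ≠ r → i ≠ e → s i = t i) ∧ s r + s q = 3 ∧ s e = 0 then 1 else 0)
        - (if (∀ i, i ≠ q → i ≠ r → i ≠ e → s i = t i) ∧ s q = 0 ∧ s r = 3 ∧ s e = 0
            then 1 else 0)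
        - (if (∀ i, i ≠ q → i ≠ r → i ≠ e → s i = t i) ∧ s q = 3 ∧ s r = 0 ∧ s e = 0
            then 1 else 0) := by
    intro s
    rw [hP', LinearMap.sub_apply, LinearMap.sub_apply, LinearMap.comp_apply,
      AlgHom.toLinearMap_apply, act_tau, T_eval hqr (fun g => cf_X (hval 0 3 0).2.1 g), hcf, hcf,
      hcf]
    congr 2
    have e1 : mv q r s q = 0 := by rw [mv_apply, if_pos rfl]
    have e2 : mv q r s r = s r + s q := by
      rw [mv_apply, if_neg (Ne.symm hqr), if_pos rfl]
    have e3 : mv q r s e = s e := by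
      rw [mv_apply, if_neg (Ne.symm hqe), if_neg (Ne.symm hre)]
    rw [e1, e2, e3]
    simp only [hmvR q r (by simp) (by simp) s, true_and]
  have hPX : ∀ g, P (X r * g) = 0 := by
    intro g
    rw [hP, LinearMap.sub_apply, LinearMap.sub_apply, LinearMap.comp_apply,
      AlgHom.toLinearMap_apply, act_tau, map_mul, T_other (Ne.symm hqr),
      cf_X (hval 0 0 3).2.2.1, cf_X (hval 0 0 3).2.2.1, cf_X (hval 3 0 0).2.2.1]
    rfl
  have htt : t = rp q r e 1 1 1 t := by
    rw [hrest]
    exact ⟨fun _ _ _ _ => rfl, hq, hr, he⟩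
  have key : cf t = P ∘ₗ (act (tau hre)).toLinearMap - P - P' := by
    apply lin_ext
    intro s
    rw [LinearMap.sub_apply, LinearMap.sub_apply, LinearMap.comp_apply, AlgHom.toLinearMap_apply,
      act_tau, T_eval hre hPX, hPv, hPv, hPv']
    have e0 : cf t (monomial s 1) = cf (rp q r e 1 1 1 t) (monomial s 1) := by rw [← htt]
    rw [e0, hcf]
    have e1 : mv r e s q = s q := by rw [mv_apply, if_neg hqr, if_neg hqe]
    have e2 : mv r e s r = 0 := by rw [mv_apply, if_pos rfl]
    have e3 : mv r e s e = s e + s r := by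
      rw [mv_apply, if_neg (Ne.symm hre), if_pos rfl]
    rw [e1, e2, e3]
    exact key_arith _ _ (hmvR r e (by simp) (by simp) s) _ _ _
  rw [key]
  exact (Rl d n).sub_mem ((Rl d n).sub_mem (Rl_act _ hPm) hPm) hPm'

end Pool.Agent.Y460.Kam
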