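import Pool.Agent.Y460.Kam.Fin

/-!
# Kameko's squaring operation on the coinvariants: the definitions used in the statement
-/

set_option autoImplicit false

namespace Pool.Agent.Y460.Kam.S

open MvPolynomial

/-- The total Steenrod square on `𝔽₂[x₁, …, x_d]`: the ring homomorphism `x_i ↦ x_i + x_i ^ 2`. -/
noncomputable def tsq (d : ℕ) (f : MvPolynomial (Fin d) (ZMod 2)) : MvPolynomial (Fin d) (ZMod 2) :=
  aeval (fun i => X i + X i ^ 2) f

/-- `Sq^k f`, for `f` homogeneous of degree `m`: the component of degree `m + k` of the total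
square of `f`. -/
noncomputable def sq (d k m : ℕ) (f : MvPolynomial (Fin d) (ZMod 2)) :
    MvPolynomial (Fin d) (ZMod 2) :=
  homogeneousComponent (m + k) (tsq d f)

/-- `w f` for `w ∈ GL_d`: the substitution `x_j ↦ ∑ i, w i j * x_i`. -/
noncomputable def gl (d : ℕ) (w : GL (Fin d) (ZMod 2)) (f : MvPolynomial (Fin d) (ZMod 2)) :
    MvPolynomial (Fin d) (ZMod 2) :=
  aeval (fun j => ∑ i, C (w.val i j) * X i) f

/-- The linear map `x^t ↦ x^((t-1)/2)` if all exponents of `x^t` are odd, `x^t ↦ 0` otherwise. -/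
noncomputable def half (d : ℕ) (f : MvPolynomial (Fin d) (ZMod 2)) :
    MvPolynomial (Fin d) (ZMod 2) :=
  ∑ t ∈ f.support, if ∀ i, Odd (t i) then monomial (t.mapRange (fun a => a / 2) rfl) (coeff t f)
    else 0

/-- `φ ∈ PH_n`: the linear functional `φ` on `P_d` vanishes in all degrees `m ≠ n`, and is
annihilated by the transposes of all `Sq^k` with `k > 0`. -/
def InPH (d n : ℕ) (φ : MvPolynomial (Fin d) (ZMod 2) →ₗ[ZMod 2] ZMod 2) : Prop :=
  (∀ m, m ≠ n → ∀ f, IsHomogeneous f m → φ f = 0) ∧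
    ∀ k, 0 < k → ∀ m, ∀ f, IsHomogeneous f m → φ (sq d k m f) = 0

/-- The span of all `φ w - φ` with `φ ∈ PH_n`, `w ∈ GL_d`; the coinvariants are the quotient of
`PH_n` by it. -/
noncomputable def Rel (d n : ℕ) : Submodule (ZMod 2) (MvPolynomial (Fin d) (ZMod 2) →ₗ[ZMod 2] ZMod 2) :=
  Submodule.span (ZMod 2) {χ | ∃ (w : GL (Fin d) (ZMod 2))
    (φ : MvPolynomial (Fin d) (ZMod 2) →ₗ[ZMod 2] ZMod 2), InPH d n φ ∧
      ∀ f, χ f = φ (gl d w f) - φ f}

lemma half_eq (d : ℕ) (f : Pol d) : half d f = kappa d f := by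
  conv_rhs => rw [f.as_sum]
  rw [map_sum, half]
  apply Finset.sum_congr rfl
  intro t _
  have h : monomial t (coeff t f) = coeff t f • (monomial t 1 : Pol d) := by
    rw [smul_monomial, smul_eq_mul, mul_one]
  rw [h, map_smul, kappa_monomial]
  split_ifs
  · rw [smul_monomial, smul_eq_mul, mul_one]
  · rw [smul_zero]

/-- Kameko's map on functionals, the transpose of `half`: it sends the functional dual to `x^s`
to the functional dual to `x^(2s+1)`. -/
noncomputable def dualKameko (d : ℕ) (φ : MvPolynomial (Fin d) (ZMod 2) →ₗ[ZMod 2] ZMod 2) :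
    MvPolynomial (Fin d) (ZMod 2) →ₗ[ZMod 2] ZMod 2 where
  toFun f := φ (half d f)
  map_add' f g := by rw [half_eq, half_eq, half_eq, map_add, map_add]
  map_smul' c f := by rw [half_eq, half_eq, map_smul, map_smul]; rfl

/-- Kameko's squaring operation `PH_n / Rel_n → PH_(d+2n) / Rel_(d+2n)` is injective: two elements
of `PH_n` whose images agree in the target agree in the source. -/
def KamekoInjective (d n : ℕ) : Prop :=
  ∀ φ ψ : MvPolynomial (Fin d) (ZMod 2) →ₗ[ZMod 2] ZMod 2, InPH d n φ → InPH d n ψ →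
    dualKameko d φ - dualKameko d ψ ∈ Rel d (d + 2 * n) → φ - ψ ∈ Rel d n

lemma InPH_iff {d n : ℕ} (φ : Module.Dual (ZMod 2) (Pol d)) : InPH d n φ ↔ φ ∈ PH d n :=
  Iff.rfl

lemma Rel_eq (d n : ℕ) : Rel d n = Rl d n := by
  apply le_antisymm
  · rw [Rel, Submodule.span_le]
    rintro χ ⟨w, φ, hφ, h⟩
    have e : χ = φ ∘ₗ (act w).toLinearMap - φ := LinearMap.ext h
    rw [e]
    exact Rl_gen w ((InPH_iff φ).mp hφ)
  · rintro _ ⟨x, hx, rfl⟩
    induction hx using Submodule.span_induction with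
    | mem x h =>
      obtain ⟨w, φ, h⟩ := h
      apply Submodule.subset_span
      refine ⟨w, φ.1, (InPH_iff φ.1).mpr φ.2, fun f => ?_⟩
      change x.1 f = _
      rw [h]
      rfl
    | zero =>
      rw [map_zero]
      exact Submodule.zero_mem _
    | add x y _ _ hx hy =>
      rw [map_add]
      exact Submodule.add_mem _ hx hy
    | smul c x _ hx =>
      rw [map_smul]
      exact Submodule.smul_mem _ c hx

lemma kam_eq (d : ℕ) (φ : Module.Dual (ZMod 2) (Pol d)) : dualKameko d φ = φ ∘ₗ kappa d := by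
  apply LinearMap.ext
  intro f
  change φ (half d f) = _
  rw [half_eq]
  rfl

/-- `KamekoInjective` is the injectivity of the induced map of quotient spaces. -/
lemma inj_iff (d n : ℕ) : KamekoInjective d n ↔ Function.Injective (sqTilde d n) := by
  constructor
  · intro h x y hxy
    obtain ⟨φ, rfl⟩ := Submodule.Quotient.mk_surjective _ x
    obtain ⟨ψ, rfl⟩ := Submodule.Quotient.mk_surjective _ y
    rw [Submodule.Quotient.eq, mem_rel_iff, ← Rel_eq]
    apply h φ.1 ψ.1 ((InPH_iff _).mpr φ.2) ((InPH_iff _).mpr ψ.2)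
    rw [kam_eq, kam_eq, Rel_eq]
    have h2 : Submodule.Quotient.mk (kam d n φ) = (Submodule.Quotient.mk (kam d n ψ) :
      PH d (d + 2 * n) ⧸ rel d (d + 2 * n)) := hxy
    rw [Submodule.Quotient.eq, mem_rel_iff] at h2
    exact h2
  · intro h φ ψ hφ hψ hk
    rw [kam_eq, kam_eq, Rel_eq] at hk
    have h2 : sqTilde d n (Submodule.Quotient.mk ⟨φ, hφ⟩) = sqTilde d n (Submodule.Quotient.mk ⟨ψ, hψ⟩) := by
      change (Submodule.Quotient.mk (kam d n ⟨φ, hφ⟩) : PH d (d + 2 * n) ⧸ rel d (d + 2 * n))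
        = Submodule.Quotient.mk (kam d n ⟨ψ, hψ⟩)
      rw [Submodule.Quotient.eq, mem_rel_iff]
      exact hk
    have h3 := h h2
    rw [Submodule.Quotient.eq, mem_rel_iff] at h3
    rw [Rel_eq]
    exact h3

end Pool.Agent.Y460.Kam.S
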